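import Mathlib
import Pool.Agent.H656.G.R_seed8.H139R3.FM

set_option autoImplicit false

/-!
# Amenability of countable Borel equivalence relations: the diagonal lemma

Let `E` be a countable Borel equivalence relation.  A Borel family of functions
`g m n x` (`x` in the space, `m n` natural numbers), where `g m n x` is a probability vector on the
class of `x`, can be diagonalised: there are Borel `h n x` with
`limsup_n ‖h n x - h n y‖ ≤ limsup_m limsup_n ‖g m n x - g m n y‖` for equivalent `x` and `y`.

Idea.  Let `S x n` tend to infinity with `n` so slowly that `n` is large enough for all `g m · x` with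
`m < S x n`.  Then `k x n = min over words w of (S (w x) n + cost w)` is at most `S x n`, still tends
to infinity, and `|k x n - k y n|` is bounded on every pair of equivalent points.  Take for `h n x` the
average of `g m n x` over `m ≤ k x n`.
-/

namespace Pool.Agent.H656.Amen

open Set MeasureTheory Filter

universe u

variable {X : Type u}

/-- `L1` distance of the functions `f x` and `f y`. -/
noncomputable def D (f : X → X → ℝ) (x y : X) : ℝ := ∑' z, |f x z - f y z|

/-- Normalised nonnegative measurable functions supported on the classes. -/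
structure NM [MeasurableSpace X] (E : X → X → Prop) (f : X → X → ℝ) : Prop where
  meas : Measurable (fun p : X × X => f p.1 p.2)
  nonneg : ∀ x y, 0 ≤ f x y
  supp : ∀ x y, ¬ E x y → f x y = 0
  sum : ∀ x, HasSum (f x) 1

theorem NM.mono [MeasurableSpace X] {E F : X → X → Prop} {f : X → X → ℝ} (h : NM E f)
    (hEF : ∀ x y, E x y → F x y) : NM F f :=
  ⟨h.meas, h.nonneg, fun x y hxy => h.supp x y (fun h' => hxy (hEF _ _ h')), h.sum⟩

theorem NM.summable_sub [MeasurableSpace X] {E : X → X → Prop} {f : X → X → ℝ} (h : NM E f)
    (x y : X) : Summable (fun z => |f x z - f y z|) :=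
  ((h.sum x).summable.sub (h.sum y).summable).abs

theorem NM.D_le_two [MeasurableSpace X] {E : X → X → Prop} {f : X → X → ℝ} (h : NM E f)
    (x y : X) : D f x y ≤ 2 := by
  have h1 : ∀ z, |f x z - f y z| ≤ f x z + f y z := by
    intro z
    have a := h.nonneg x z
    have b := h.nonneg y z
    rw [abs_le]
    constructor <;> linarith
  have h2 : HasSum (fun z => f x z + f y z) (1 + 1) := (h.sum x).add (h.sum y)
  calc D f x y ≤ ∑' z, (f x z + f y z) := Summable.tsum_le_tsum h1 (h.summable_sub x y) h2.summable
    _ = 2 := by rw [h2.tsum_eq]; norm_num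

theorem D_nonneg (f : X → X → ℝ) (x y : X) : 0 ≤ D f x y := tsum_nonneg fun _ => abs_nonneg _

/-! ### Words and costs -/

/-- Cost of a word. -/
def cost : List ℕ → ℕ
  | [] => 0
  | i :: w => (i + 1) + cost w

/-- Action of a word. -/
def act (s : ℕ → X → X) : List ℕ → X → X
  | [], x => x
  | i :: w, x => act s w (s i x)

theorem finite_cost (K : ℕ) : {w : List ℕ | cost w ≤ K}.Finite := by
  induction K using Nat.strong_induction_on with
  | _ K ih =>
    have : {w : List ℕ | cost w ≤ K} ⊆ {[]} ∪ ⋃ i ∈ Finset.range K,
        (fun w => i :: w) '' {w : List ℕ | cost w ≤ K - (i + 1)} := by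
      intro w hw
      cases w with
      | nil => left; rfl
      | cons i w =>
        right
        have hw' : (i + 1) + cost w ≤ K := hw
        simp only [mem_iUnion, Finset.mem_range]
        refine ⟨i, by omega, w, ?_, rfl⟩
        show cost w ≤ K - (i + 1)
        omega
    refine Set.Finite.subset ?_ this
    refine (Set.finite_singleton _).union ?_
    refine Set.Finite.biUnion (Finset.finite_toSet _) ?_
    intro i hi
    have hi' : i < K := Finset.mem_range.1 hi
    exact (ih (K - (i + 1)) (by omega)).image _

/-- The Lipschitz lower regularisation of `S`. -/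
noncomputable def lip (s : ℕ → X → X) (S : X → ℕ) (x : X) : ℕ :=
  sInf (range fun w : List ℕ => S (act s w x) + cost w)

theorem lip_le (s : ℕ → X → X) (S : X → ℕ) (x : X) (w : List ℕ) :
    lip s S x ≤ S (act s w x) + cost w := Nat.sInf_le ⟨w, rfl⟩

theorem lip_le_self (s : ℕ → X → X) (S : X → ℕ) (x : X) : lip s S x ≤ S x := by
  simpa [act, cost] using lip_le s S x []

theorem exists_lip (s : ℕ → X → X) (S : X → ℕ) (x : X) :
    ∃ w : List ℕ, lip s S x = S (act s w x) + cost w := by
  have := Nat.sInf_mem (range_nonempty fun w : List ℕ => S (act s w x) + cost w)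
  obtain ⟨w, hw⟩ := this
  exact ⟨w, hw.symm⟩

theorem le_lip (s : ℕ → X → X) (S : X → ℕ) (x : X) (K : ℕ)
    (h : ∀ w, K ≤ S (act s w x) + cost w) : K ≤ lip s S x := by
  obtain ⟨w, hw⟩ := exists_lip s S x
  rw [hw]
  exact h w

theorem lip_step (s : ℕ → X → X) (S : X → ℕ) (x : X) (i : ℕ) :
    lip s S x ≤ lip s S (s i x) + (i + 1) := by
  obtain ⟨w, hw⟩ := exists_lip s S (s i x)
  have := lip_le s S x (i :: w)
  simp only [act, cost] at this
  omega

theorem lip_step' (s : ℕ → X → X) (hs : ∀ i x, s i (s i x) = x) (S : X → ℕ) (x : X) (i : ℕ) :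
    lip s S (s i x) ≤ lip s S x + (i + 1) := by
  have := lip_step s S (s i x) i
  rwa [hs] at this

theorem tendsto_lip (s : ℕ → X → X) (S : ℕ → X → ℕ)
    (hS : ∀ x, Tendsto (fun n => S n x) atTop atTop) (x : X) :
    Tendsto (fun n => lip s (S n) x) atTop atTop := by
  rw [tendsto_atTop]
  intro K
  have h1 : ∀ w ∈ {w : List ℕ | cost w ≤ K}, ∀ᶠ n in atTop, K ≤ S n (act s w x) := by
    intro w _
    exact (tendsto_atTop.1 (hS (act s w x))) K
  have h2 := (finite_cost K).eventually_all.2 h1
  filter_upwards [h2] with n hn
  apply le_lip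
  intro w
  by_cases hw : cost w ≤ K
  · have := hn w hw
    omega
  · omega

theorem measurable_act [MeasurableSpace X] (s : ℕ → X → X) (hs : ∀ i, Measurable (s i))
    (w : List ℕ) : Measurable (act s w) := by
  induction w with
  | nil => exact measurable_id
  | cons i w ih => exact ih.comp (hs i)

theorem measurable_lip [MeasurableSpace X] (s : ℕ → X → X) (hs : ∀ i, Measurable (s i))
    (S : X → ℕ) (hS : Measurable S) : Measurable (lip s S) := by
  apply measurable_to_countable'
  intro K
  have : lip s S ⁻¹' {K} = (⋃ w : List ℕ, {x | S (act s w x) + cost w = K}) ∩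
      ⋂ w : List ℕ, {x | K ≤ S (act s w x) + cost w} := by
    ext x
    simp only [mem_preimage, mem_singleton_iff, mem_inter_iff, mem_iUnion, mem_ofPred_eq, mem_iInter]
    constructor
    · rintro rfl
      refine ⟨?_, fun w => lip_le s S x w⟩
      obtain ⟨w, hw⟩ := exists_lip s S x
      exact ⟨w, hw.symm⟩
    · rintro ⟨⟨w, hw⟩, h⟩
      apply le_antisymm
      · rw [← hw]; exact lip_le s S x w
      · exact le_lip s S x K h
  rw [this]
  have hm : ∀ w, Measurable (fun x => S (act s w x) + cost w) := fun w =>
    (hS.comp (measurable_act s hs w)).add_const _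
  refine (MeasurableSet.iUnion fun w => ?_).inter (MeasurableSet.iInter fun w => ?_)
  · exact (hm w) (measurableSet_singleton K)
  · exact (hm w) (measurableSet_Ici (a := K))

/-! ### Sums over classes -/

/-- Sum of a function supported on the class of `x`, through an enumeration. -/
theorem tsum_class (E : X → X → Prop) (s : ℕ → X → X) (hs : ∀ x y, E x y ↔ ∃ i, s i x = y)
    (x : X) (F : X → ℝ) (hF : ∀ z, ¬ E x z → F z = 0) :
    ∑' z, F z = ∑' i, {i | ∀ j < i, s j x ≠ s i x}.indicator (fun i => F (s i x)) i := by
  classical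
  have hinj : Function.Injective (fun i : {i | ∀ j < i, s j x ≠ s i x} => s i.1 x) := by
    rintro ⟨i, hi⟩ ⟨j, hj⟩ h
    simp only at h
    rcases lt_trichotomy i j with hij | hij | hij
    · exact absurd h (hj i hij)
    · exact Subtype.ext hij
    · exact absurd h.symm (hi j hij)
  have hsup : Function.support F ⊆ range (fun i : {i | ∀ j < i, s j x ≠ s i x} => s i.1 x) := by
    intro z hz
    by_cases h : E x z
    · have h' := (hs x z).1 h
      refine ⟨⟨Nat.find h', ?_⟩, Nat.find_spec h'⟩
      intro j hj
      rw [Nat.find_spec h']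
      exact Nat.find_min h' hj
    · exact absurd (hF z h) hz
  rw [← hinj.tsum_eq hsup]
  exact tsum_subtype _ (fun i => F (s i x))

variable [MeasurableSpace X] [StandardBorelSpace X]

theorem measurableSet_firstOcc (s : ℕ → X → X) (hs : ∀ i, Measurable (s i)) (i : ℕ) :
    MeasurableSet {x | ∀ j < i, s j x ≠ s i x} := by
  have : {x | ∀ j < i, s j x ≠ s i x} = ⋂ j, ⋂ _ : j < i, {x | s j x = s i x}ᶜ := by
    ext x
    simp
  rw [this]
  refine MeasurableSet.iInter fun j => MeasurableSet.iInter fun _ => ?_
  exact (measurableSet_eq_fun (hs j) (hs i)).compl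

theorem measurable_D (E : X → X → Prop) (hE : Equivalence E) (s : ℕ → X → X)
    (hsm : ∀ i, Measurable (s i)) (hs : ∀ x y, E x y ↔ ∃ i, s i x = y)
    (f : X → X → ℝ) (hf : NM E f) (i : ℕ) : Measurable (fun x => D f x (s i x)) := by
  classical
  have e : ∀ x, D f x (s i x) = (∑' j, ENNReal.ofReal
      (if ∀ k < j, s k x ≠ s j x then |f x (s j x) - f (s i x) (s j x)| else 0)).toReal := by
    intro x
    have hxi : E x (s i x) := (hs _ _).2 ⟨i, rfl⟩
    rw [D, tsum_class E s hs x (fun z => |f x z - f (s i x) z|)]
    · rw [ENNReal.tsum_toReal_eq]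
      · apply tsum_congr
        intro j
        rw [ENNReal.toReal_ofReal]
        · by_cases h : ∀ k < j, s k x ≠ s j x
          · rw [if_pos h, indicator_of_mem]
            exact h
          · rw [if_neg h, indicator_of_notMem]
            exact h
        · split_ifs
          · exact abs_nonneg _
          · exact le_rfl
      · intro j
        exact ENNReal.ofReal_ne_top
    · intro z hz
      have hz' : ¬ E (s i x) z := fun h => hz (hE.trans hxi h)
      simp [hf.supp _ _ hz, hf.supp _ _ hz']
  have e' : (fun x => D f x (s i x)) = fun x => (∑' j, ENNReal.ofReal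
      (if ∀ k < j, s k x ≠ s j x then |f x (s j x) - f (s i x) (s j x)| else 0)).toReal := by
    funext x
    exact e x
  rw [e']
  apply Measurable.ennreal_toReal
  apply Measurable.ennreal_tsum
  intro j
  apply Measurable.ennreal_ofReal
  apply Measurable.ite (measurableSet_firstOcc s hsm j)
  · have m1 : Measurable (fun x => f x (s j x)) := hf.meas.comp (measurable_id.prodMk (hsm j))
    have m2 : Measurable (fun x => f (s i x) (s j x)) := hf.meas.comp ((hsm i).prodMk (hsm j))
    exact (m1.sub m2).abs
  · exact measurable_const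

end Pool.Agent.H656.Amen
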