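import Mathlib

set_option autoImplicit false

/-!
# Definitions: countable Borel equivalence relations, amenability along a filter, iterated
Fréchet filters
-/

namespace Pool.Agent.H656.Amen

universe u

/-- `E` is a countable Borel equivalence relation: an equivalence relation which is a Borel subset of
the square and all of whose classes are countable. -/
structure CBER {X : Type u} [MeasurableSpace X] (E : X → X → Prop) : Prop where
  equiv : Equivalence E
  meas : MeasurableSet {p : X × X | E p.1 p.2}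
  count : ∀ x, {y | E x y}.Countable

/-- `E` is `F`-amenable: there are Borel functions `f n ≥ 0` such that for every `x` the function
`y ↦ f n (x, y)` on the class of `x` has sum `1`, and for all equivalent `x`, `y` the `ℓ¹`-distance of
`f n (x, ·)` and `f n (y, ·)` tends to `0` along `F`. -/
def FAmenable {X : Type u} [MeasurableSpace X] (E : X → X → Prop) (F : Filter ℕ) : Prop :=
  ∃ f : ℕ → X × X → ℝ, (∀ n, Measurable (f n)) ∧ (∀ n p, 0 ≤ f n p) ∧
    (∀ n x, HasSum (fun y : {y : X // E x y} => f n (x, y.1)) 1) ∧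
    (∀ x y, E x y → Filter.Tendsto
      (fun n => ∑' z : {z : X // E x z}, |f n (x, z.1) - f n (y, z.1)|) F (nhds 0))

/-- `Fr` is a family of iterated Fréchet filters for the pairing function `p`: `Fr 1` is the filter of
cofinite sets, `Fr (β + 1) = Fr 1 ⊗ Fr β`, and `Fr l = Fr 1 ⊗ (Fr (s m))_m` for countable limit `l`,
where `s` is a strictly increasing sequence of ordinals `≥ 1` with supremum `l`. -/
structure IsFrechetFamily (p : ℕ → ℕ → ℕ) (Fr : Ordinal.{0} → Filter ℕ) : Prop where
  one : Fr 1 = Filter.cofinite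
  succ : ∀ β : Ordinal.{0}, 1 ≤ β → β.card ≤ Cardinal.aleph0 →
      ∀ A : Set ℕ, A ∈ Fr (β + 1) ↔ {m : ℕ | {n : ℕ | p m n ∈ A} ∈ Fr β} ∈ Filter.cofinite
  limit : ∀ l : Ordinal.{0}, Order.IsSuccLimit l → l.card ≤ Cardinal.aleph0 →
      ∃ s : ℕ → Ordinal.{0}, StrictMono s ∧ (∀ k, 1 ≤ s k) ∧ (⨆ k, s k) = l ∧
        ∀ A : Set ℕ, A ∈ Fr l ↔
          {m : ℕ | {n : ℕ | p m n ∈ A} ∈ Fr (s m)} ∈ Filter.cofinite

end Pool.Agent.H656.Amen
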