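import Mathlib
import Pool.Agent.H656.AmenCore

set_option autoImplicit false

/-!
# The diagonal lemma
-/

namespace Pool.Agent.H656.Amen

open Set MeasureTheory Filter

universe u

variable {X : Type u}

/-! ### Averages in a normed space -/

section Avg

variable {V : Type*} [NormedAddCommGroup V] [NormedSpace ℝ V]

omit [NormedSpace ℝ V] in
theorem norm_partial_sub (v : ℕ → V) (hv : ∀ m, ‖v m‖ ≤ 1) (K L : ℕ) (hKL : K ≤ L) :
    ‖∑ m ∈ Finset.range L, v m - ∑ m ∈ Finset.range K, v m‖ ≤ (L : ℝ) - K := by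
  have : ∑ m ∈ Finset.range L, v m - ∑ m ∈ Finset.range K, v m = ∑ m ∈ Finset.Ico K L, v m := by
    rw [Finset.sum_Ico_eq_sub _ hKL]
  rw [this]
  calc ‖∑ m ∈ Finset.Ico K L, v m‖ ≤ ∑ m ∈ Finset.Ico K L, ‖v m‖ := norm_sum_le _ _
    _ ≤ ∑ m ∈ Finset.Ico K L, (1 : ℝ) := Finset.sum_le_sum fun m _ => hv m
    _ = (L : ℝ) - K := by
      rw [Finset.sum_const, Nat.card_Ico, nsmul_eq_mul, mul_one, Nat.cast_sub hKL]

omit [NormedSpace ℝ V] in
theorem norm_partial_sub' (v : ℕ → V) (hv : ∀ m, ‖v m‖ ≤ 1) (K L : ℕ) :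
    ‖∑ m ∈ Finset.range K, v m - ∑ m ∈ Finset.range L, v m‖ ≤ |(K : ℝ) - L| := by
  rcases le_total K L with h | h
  · rw [norm_sub_rev, abs_sub_comm]
    exact (norm_partial_sub v hv K L h).trans (le_abs_self _)
  · exact (norm_partial_sub v hv L K h).trans (le_abs_self _)

/-- Average of the first `K + 1` vectors. -/
noncomputable def avg (v : ℕ → V) (K : ℕ) : V := ((K : ℝ) + 1)⁻¹ • ∑ m ∈ Finset.range (K + 1), v m

theorem norm_avg_le (v : ℕ → V) (hv : ∀ m, ‖v m‖ ≤ 1) (K : ℕ) : ‖avg v K‖ ≤ 1 := by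
  have hK : (0 : ℝ) < (K : ℝ) + 1 := by positivity
  rw [avg, norm_smul, norm_inv, Real.norm_of_nonneg hK.le]
  rw [inv_mul_le_iff₀ hK, mul_one]
  calc ‖∑ m ∈ Finset.range (K + 1), v m‖ ≤ ∑ m ∈ Finset.range (K + 1), ‖v m‖ := norm_sum_le _ _
    _ ≤ ∑ m ∈ Finset.range (K + 1), (1 : ℝ) := Finset.sum_le_sum fun m _ => hv m
    _ = (K : ℝ) + 1 := by simp

theorem norm_avg_sub_avg (v : ℕ → V) (hv : ∀ m, ‖v m‖ ≤ 1) (K L : ℕ) :
    ‖avg v K - avg v L‖ ≤ 2 * |(K : ℝ) - L| / ((K : ℝ) + 1) := by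
  have hK : (0 : ℝ) < (K : ℝ) + 1 := by positivity
  have hL : (0 : ℝ) < (L : ℝ) + 1 := by positivity
  have e1 : ((K : ℝ) + 1) • (avg v K - avg v L) =
      (∑ m ∈ Finset.range (K + 1), v m - ∑ m ∈ Finset.range (L + 1), v m) +
        ((L : ℝ) - K) • avg v L := by
    have a : ((K : ℝ) + 1) • avg v K = ∑ m ∈ Finset.range (K + 1), v m := by
      rw [avg, smul_smul, mul_inv_cancel₀ hK.ne', one_smul]
    have b : ((L : ℝ) + 1) • avg v L = ∑ m ∈ Finset.range (L + 1), v m := by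
      rw [avg, smul_smul, mul_inv_cancel₀ hL.ne', one_smul]
    rw [smul_sub, a, ← b]
    module
  have e2 : ((K : ℝ) + 1) * ‖avg v K - avg v L‖ ≤ 2 * |(K : ℝ) - L| := by
    have : ((K : ℝ) + 1) * ‖avg v K - avg v L‖ = ‖((K : ℝ) + 1) • (avg v K - avg v L)‖ := by
      rw [norm_smul, Real.norm_of_nonneg hK.le]
    rw [this, e1]
    refine (norm_add_le _ _).trans ?_
    have h1 := norm_partial_sub' v hv (K + 1) (L + 1)
    have h2 : ‖((L : ℝ) - K) • avg v L‖ ≤ |(K : ℝ) - L| := by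
      rw [norm_smul, Real.norm_eq_abs, abs_sub_comm]
      have := norm_avg_le v hv L
      have h3 := abs_nonneg ((K : ℝ) - L)
      nlinarith
    have h3 : |((K + 1 : ℕ) : ℝ) - ((L + 1 : ℕ) : ℝ)| = |(K : ℝ) - L| := by
      congr 1
      push_cast
      ring
    rw [h3] at h1
    linarith
  rw [le_div_iff₀ hK]
  linarith

theorem norm_avg_sub (v w : ℕ → V) (K : ℕ) :
    ‖avg v K - avg w K‖ ≤ (∑ m ∈ Finset.range (K + 1), ‖v m - w m‖) / ((K : ℝ) + 1) := by
  have hK : (0 : ℝ) < (K : ℝ) + 1 := by positivity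
  have : avg v K - avg w K = ((K : ℝ) + 1)⁻¹ • ∑ m ∈ Finset.range (K + 1), (v m - w m) := by
    rw [avg, avg, ← smul_sub, Finset.sum_sub_distrib]
  rw [this, norm_smul, norm_inv, Real.norm_of_nonneg hK.le, div_eq_inv_mul]
  exact mul_le_mul_of_nonneg_left (norm_sum_le _ _) (inv_nonneg.2 hK.le)

end Avg

/-! ### Summable functions as vectors -/

/-- A summable function as an element of `ℓ¹`. -/
noncomputable def vec (u : X → ℝ) (hu : Summable u) : lp (fun _ : X => ℝ) 1 :=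
  ⟨u, by
    apply memℓp_gen
    simpa using hu.abs⟩

theorem vec_apply (u : X → ℝ) (hu : Summable u) (z : X) : vec u hu z = u z := rfl

theorem norm_eq (v : lp (fun _ : X => ℝ) 1) : ‖v‖ = ∑' z, |v z| := by
  rw [lp.norm_eq_tsum_rpow (by simp)]
  simp

variable [MeasurableSpace X]

theorem NM.norm_vec {E : X → X → Prop} {f : X → X → ℝ} (h : NM E f) (x : X) :
    ‖vec (f x) (h.sum x).summable‖ = 1 := by
  rw [norm_eq]
  have : ∀ z, |vec (f x) (h.sum x).summable z| = f x z := fun z => abs_of_nonneg (h.nonneg x z)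
  simp_rw [this]
  exact (h.sum x).tsum_eq

theorem NM.D_eq {E : X → X → Prop} {f : X → X → ℝ} (h : NM E f) (x y : X) :
    D f x y = ‖vec (f x) (h.sum x).summable - vec (f y) (h.sum y).summable‖ := by
  rw [norm_eq]
  rfl

/-- The average of finitely many normalised functions, with a variable number of terms. -/
noncomputable def comb (g : ℕ → X → X → ℝ) (k : X → ℕ) (x z : X) : ℝ :=
  ((k x : ℝ) + 1)⁻¹ * ∑ m ∈ Finset.range (k x + 1), g m x z

theorem NM_comb (E : X → X → Prop) (g : ℕ → X → X → ℝ) (hg : ∀ m, NM E (g m)) (k : X → ℕ)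
    (hk : Measurable k) : NM E (comb g k) := by
  constructor
  · have h1 : Measurable (fun q : ℕ × (X × X) =>
        ((q.1 : ℝ) + 1)⁻¹ * ∑ m ∈ Finset.range (q.1 + 1), g m q.2.1 q.2.2) := by
      apply measurable_from_prod_countable_right
      intro K
      have h2 : Measurable (fun q : X × X => ∑ m ∈ Finset.range (K + 1), g m q.1 q.2) :=
        Finset.measurable_sum _ fun m _ => (hg m).meas
      exact h2.const_mul (((K : ℝ) + 1)⁻¹)
    exact h1.comp ((hk.comp measurable_fst).prodMk measurable_id)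
  · intro x y
    exact mul_nonneg (inv_nonneg.2 (by positivity)) (Finset.sum_nonneg fun m _ => (hg m).nonneg x y)
  · intro x y hxy
    unfold comb
    rw [Finset.sum_eq_zero fun m _ => (hg m).supp x y hxy, mul_zero]
  · intro x
    have h1 : HasSum (fun z => ∑ m ∈ Finset.range (k x + 1), g m x z)
        (∑ m ∈ Finset.range (k x + 1), (1 : ℝ)) := hasSum_sum fun m _ => (hg m).sum x
    have h2 := h1.mul_left ((k x : ℝ) + 1)⁻¹
    have h3 : ((k x : ℝ) + 1)⁻¹ * ∑ m ∈ Finset.range (k x + 1), (1 : ℝ) = 1 := by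
      rw [Finset.sum_const, Finset.card_range, nsmul_eq_mul, mul_one]
      push_cast
      exact inv_mul_cancel₀ (by positivity)
    rw [h3] at h2
    exact h2

theorem vec_comb (E : X → X → Prop) (g : ℕ → X → X → ℝ) (hg : ∀ m, NM E (g m)) (k : X → ℕ)
    (hk : Measurable k) (x : X) :
    vec (comb g k x) ((NM_comb E g hg k hk).sum x).summable =
      avg (fun m => vec (g m x) ((hg m).sum x).summable) (k x) := by
  ext z
  rw [vec_apply, avg, lp.coeFn_smul, Pi.smul_apply, lp.coeFn_sum, Finset.sum_apply, smul_eq_mul]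
  rfl

theorem D_comb_le (E : X → X → Prop) (g : ℕ → X → X → ℝ) (hg : ∀ m, NM E (g m)) (k : X → ℕ)
    (hk : Measurable k) (x y : X) :
    D (comb g k) x y ≤ (∑ m ∈ Finset.range (k x + 1), D (g m) x y) / ((k x : ℝ) + 1) +
      2 * |(k x : ℝ) - k y| / ((k x : ℝ) + 1) := by
  rw [(NM_comb E g hg k hk).D_eq, vec_comb E g hg k hk, vec_comb E g hg k hk]
  set v : ℕ → lp (fun _ : X => ℝ) 1 := fun m => vec (g m x) ((hg m).sum x).summable with hv
  set w : ℕ → lp (fun _ : X => ℝ) 1 := fun m => vec (g m y) ((hg m).sum y).summable with hw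
  have h1 : ∀ m, D (g m) x y = ‖v m - w m‖ := fun m => (hg m).D_eq x y
  simp_rw [h1]
  have h2 : ∀ m, ‖w m‖ ≤ 1 := fun m => ((hg m).norm_vec y).le
  have h3 : avg v (k x) - avg w (k y) = (avg v (k x) - avg w (k x)) + (avg w (k x) - avg w (k y)) := by
    abel
  rw [h3]
  refine (norm_add_le _ _).trans (add_le_add (norm_avg_sub v w _) (norm_avg_sub_avg w h2 _ _))

end Pool.Agent.H656.Amen
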