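import Mathlib
import Pool.Agent.H656.AmenDefs

set_option autoImplicit false

/-!
# Existence of families of iterated Fréchet filters
-/

namespace Pool.Agent.H656.Amen

open Set Filter

/-- Fundamental sequences. -/
theorem exists_fundamental (l : Ordinal.{0}) (hl : Order.IsSuccLimit l)
    (hc : l.card ≤ Cardinal.aleph0) :
    ∃ s : ℕ → Ordinal.{0}, StrictMono s ∧ (∀ k, 1 ≤ s k) ∧ (⨆ k, s k) = l := by
  have h0 : 0 < l := by
    rcases eq_or_ne l 0 with h | h
    · subst h
      exact absurd isMin_bot hl.1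
    · exact pos_iff_ne_zero.2 h
  have hcount : (Iio l).Countable := by
    rw [← Cardinal.le_aleph0_iff_set_countable]
    have := Cardinal.mk_Iio_ordinal l
    rw [this]
    rw [← Cardinal.lift_aleph0.{1, 0}, Cardinal.lift_le]
    exact hc
  obtain ⟨e, he⟩ := hcount.exists_eq_range ⟨0, h0⟩
  have hel : ∀ n, e n < l := fun n => by
    have : e n ∈ Iio l := by rw [he]; exact ⟨n, rfl⟩
    exact this
  have hsucc : ∀ a < l, Order.succ a < l := fun a ha => hl.succ_lt ha
  let s : ℕ → Ordinal.{0} := fun n => Nat.rec (max 1 (e 0)) (fun n r => max (Order.succ r) (e (n + 1))) n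
  have s0 : s 0 = max 1 (e 0) := rfl
  have s1 : ∀ n, s (n + 1) = max (Order.succ (s n)) (e (n + 1)) := fun n => rfl
  have h1l : 1 < l := by
    have := hsucc 0 h0
    simpa using this
  have hsl : ∀ n, s n < l := by
    intro n
    induction n with
    | zero => rw [s0]; exact max_lt h1l (hel 0)
    | succ n ih => rw [s1]; exact max_lt (hsucc _ ih) (hel _)
  have hmono : StrictMono s := by
    apply strictMono_nat_of_lt_succ
    intro n
    rw [s1]
    exact lt_of_lt_of_le (Order.lt_succ _) (le_max_left _ _)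
  refine ⟨s, hmono, ?_, ?_⟩
  · intro k
    have : s 0 ≤ s k := hmono.monotone (Nat.zero_le k)
    exact le_trans (by rw [s0]; exact le_max_left _ _) this
  · apply le_antisymm
    · exact ciSup_le fun n => (hsl n).le
    · by_contra hcon
      rw [not_le] at hcon
      have hmem : (⨆ k, s k) ∈ Iio l := hcon
      rw [he] at hmem
      obtain ⟨n, hn⟩ := hmem
      have h2 : e n ≤ s n := by
        cases n with
        | zero => rw [s0]; exact le_max_right _ _
        | succ n => rw [s1]; exact le_max_right _ _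
      have h3 : s n < s (n + 1) := hmono (Nat.lt_succ_self n)
      have h4 : s (n + 1) ≤ ⨆ k, s k := Ordinal.le_iSup s (n + 1)
      rw [← hn] at h4
      exact absurd (lt_of_le_of_lt h2 (lt_of_lt_of_le h3 h4)) (lt_irrefl _)

/-- The filter `Fr 1 ⊗ (G m)_m`. -/
def tensor (p : ℕ → ℕ → ℕ) (G : ℕ → Filter ℕ) : Filter ℕ :=
  Filter.bind Filter.cofinite fun m => Filter.map (p m) (G m)

theorem mem_tensor (p : ℕ → ℕ → ℕ) (G : ℕ → Filter ℕ) (A : Set ℕ) :
    A ∈ tensor p G ↔ {m : ℕ | {n : ℕ | p m n ∈ A} ∈ G m} ∈ Filter.cofinite := Iff.rfl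

/-- Families of iterated Fréchet filters exist. -/
theorem exists_frechetFamily (p : ℕ → ℕ → ℕ) : ∃ Fr : Ordinal.{0} → Filter ℕ, IsFrechetFamily p Fr := by
  classical
  choose s hs using exists_fundamental
  have hlt : ∀ l h1 h2 k, s l h1 h2 k < l := by
    intro l h1 h2 k
    have a : s l h1 h2 k < s l h1 h2 (k + 1) := (hs l h1 h2).1 (Nat.lt_succ_self k)
    have b : s l h1 h2 (k + 1) ≤ ⨆ k, s l h1 h2 k := Ordinal.le_iSup _ (k + 1)
    rw [(hs l h1 h2).2.2] at b
    exact lt_of_lt_of_le a b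
  have hpred : ∀ a : Ordinal.{0}, (∃ β, 1 ≤ β ∧ a = β + 1) → ∃ β, β < a ∧ 1 ≤ β ∧ a = β + 1 := by
    rintro a ⟨β, h1, rfl⟩
    exact ⟨β, lt_add_one β, h1, rfl⟩
  let step : (a : Ordinal.{0}) → ((b : Ordinal.{0}) → b < a → Filter ℕ) → Filter ℕ := fun a F =>
    if h : Order.IsSuccLimit a ∧ a.card ≤ Cardinal.aleph0 then
      tensor p fun m => F (s a h.1 h.2 m) (hlt a h.1 h.2 m)
    else if h : ∃ β, 1 ≤ β ∧ a = β + 1 then
      tensor p fun _ => F (hpred a h).choose (hpred a h).choose_spec.1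
    else Filter.cofinite
  let Fr : Ordinal.{0} → Filter ℕ := WellFounded.fix (C := fun _ => Filter ℕ) Ordinal.lt_wf step
  have hFr : ∀ a, Fr a = step a fun b _ => Fr b := fun a => WellFounded.fix_eq _ _ a
  refine ⟨Fr, ⟨?_, ?_, ?_⟩⟩
  · rw [hFr]
    have h1 : ¬ (Order.IsSuccLimit (1 : Ordinal.{0}) ∧ (1 : Ordinal.{0}).card ≤ Cardinal.aleph0) := by
      rintro ⟨h, _⟩
      have : Order.IsSuccLimit (Order.succ (0 : Ordinal.{0})) := by simpa using h
      exact Order.not_isSuccLimit_succ _ this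
    have h2 : ¬ ∃ β : Ordinal.{0}, 1 ≤ β ∧ 1 = β + 1 := by
      rintro ⟨β, h, h'⟩
      have : β < β + 1 := lt_add_one β
      rw [← h'] at this
      exact absurd (lt_of_le_of_lt h this) (lt_irrefl _)
    show (if h : _ then _ else if h : _ then _ else _) = _
    rw [dif_neg h1, dif_neg h2]
  · intro β hβ _ A
    rw [hFr (β + 1)]
    have h1 : ¬ (Order.IsSuccLimit (β + 1) ∧ (β + 1).card ≤ Cardinal.aleph0) := by
      rintro ⟨h, _⟩
      rw [← Order.succ_eq_add_one] at h
      exact Order.not_isSuccLimit_succ _ h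
    have h2 : ∃ γ : Ordinal.{0}, 1 ≤ γ ∧ β + 1 = γ + 1 := ⟨β, hβ, rfl⟩
    have e : step (β + 1) (fun b _ => Fr b) = tensor p fun _ => Fr (hpred (β + 1) h2).choose := by
      show (if h : _ then _ else if h : _ then _ else _) = _
      rw [dif_neg h1, dif_pos h2]
    have e2 : (hpred (β + 1) h2).choose = β := by
      have := (hpred (β + 1) h2).choose_spec.2.2
      have h3 : Order.succ β = Order.succ (hpred (β + 1) h2).choose := by
        rw [Order.succ_eq_add_one, Order.succ_eq_add_one]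
        exact this
      exact (Order.succ_injective h3).symm
    rw [e, mem_tensor, e2]
  · intro l hl hc
    refine ⟨s l hl hc, (hs l hl hc).1, (hs l hl hc).2.1, (hs l hl hc).2.2, ?_⟩
    intro A
    rw [hFr l]
    have e : step l (fun b _ => Fr b) = tensor p fun m => Fr (s l hl hc m) := by
      show (if h : _ then _ else if h : _ then _ else _) = _
      rw [dif_pos (⟨hl, hc⟩ : Order.IsSuccLimit l ∧ l.card ≤ Cardinal.aleph0)]
    rw [e, mem_tensor]

end Pool.Agent.H656.Amen
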