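import Mathlib
import Pool.Agent.H656.AmenDiag
import Pool.Agent.H656.AmenDefs

set_option autoImplicit false

/-!
# The diagonal lemma: conclusion
-/

namespace Pool.Agent.H656.Amen

open Set MeasureTheory Filter TopologicalSpace

universe u

variable {X : Type u}

/-- Index `n` is large enough for the array `g m`, at `x`. -/
def Good (s : ℕ → X → X) (g : ℕ → ℕ → X → X → ℝ) (m : ℕ) (x : X) (n : ℕ) : Prop :=
  ∀ i ≤ m, ∀ j ≤ m, (∀ᶠ n' in atTop, D (g m n') x (s i x) ≤ denseSeq ℝ j) →
    ∀ n' ≥ n, D (g m n') x (s i x) ≤ denseSeq ℝ j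

theorem eventually_good (s : ℕ → X → X) (g : ℕ → ℕ → X → X → ℝ) (m : ℕ) (x : X) :
    ∀ᶠ n in atTop, Good s g m x n := by
  have h : ∀ i ∈ Finset.range (m + 1), ∀ᶠ n in atTop, ∀ j ∈ Finset.range (m + 1),
      (∀ᶠ n' in atTop, D (g m n') x (s i x) ≤ denseSeq ℝ j) →
      ∀ n' ≥ n, D (g m n') x (s i x) ≤ denseSeq ℝ j := by
    intro i _
    rw [Filter.eventually_all_finset]
    intro j _
    by_cases hj : ∀ᶠ n' in atTop, D (g m n') x (s i x) ≤ denseSeq ℝ j
    · obtain ⟨N, hN⟩ := eventually_atTop.1 hj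
      filter_upwards [eventually_ge_atTop N] with n hn _ n' hn'
      exact hN n' (hn.trans hn')
    · exact Eventually.of_forall fun n h => absurd h hj
  have h2 := (Filter.eventually_all_finset _).2 h
  filter_upwards [h2] with n hn i hi j hj
  exact hn i (Finset.mem_range.2 (by omega)) j (Finset.mem_range.2 (by omega))

open Classical in
/-- The slow function. -/
noncomputable def slow (s : ℕ → X → X) (g : ℕ → ℕ → X → X → ℝ) (n : ℕ) (x : X) : ℕ :=
  Nat.findGreatest (fun m => ∀ m' < m, Good s g m' x n) n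

theorem slow_good (s : ℕ → X → X) (g : ℕ → ℕ → X → X → ℝ) (n : ℕ) (x : X) (m : ℕ)
    (hm : m < slow s g n x) : Good s g m x n := by
  classical
  have h0 : ∀ m' < 0, Good s g m' x n := fun m' h => absurd h (by omega)
  exact Nat.findGreatest_spec (P := fun m => ∀ m' < m, Good s g m' x n) (Nat.zero_le n) h0 m hm

theorem tendsto_slow (s : ℕ → X → X) (g : ℕ → ℕ → X → X → ℝ) (x : X) :
    Tendsto (fun n => slow s g n x) atTop atTop := by
  classical
  rw [tendsto_atTop]
  intro K
  have h : ∀ m ∈ Finset.range K, ∀ᶠ n in atTop, Good s g m x n := fun m _ => eventually_good s g m x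
  filter_upwards [(Filter.eventually_all_finset _).2 h, eventually_ge_atTop K] with n hn hK
  apply Nat.le_findGreatest hK
  intro m' hm'
  exact hn m' (Finset.mem_range.2 hm')

variable [MeasurableSpace X] [StandardBorelSpace X]

theorem measurableSet_good (E : X → X → Prop) (hE : Equivalence E) (s : ℕ → X → X)
    (hsm : ∀ i, Measurable (s i)) (hs : ∀ x y, E x y ↔ ∃ i, s i x = y)
    (g : ℕ → ℕ → X → X → ℝ) (hg : ∀ m n, NM E (g m n)) (m n : ℕ) :
    MeasurableSet {x | Good s g m x n} := by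
  have h1 : ∀ i j n', MeasurableSet {x | D (g m n') x (s i x) ≤ denseSeq ℝ j} := fun i j n' =>
    (measurable_D E hE s hsm hs (g m n') (hg m n') i) measurableSet_Iic
  have : {x | Good s g m x n} = ⋂ i, ⋂ _ : i ≤ m, ⋂ j, ⋂ _ : j ≤ m,
      ((⋃ N, ⋂ n', ⋂ _ : n' ≥ N, {x | D (g m n') x (s i x) ≤ denseSeq ℝ j})ᶜ ∪
        ⋂ n', ⋂ _ : n' ≥ n, {x | D (g m n') x (s i x) ≤ denseSeq ℝ j}) := by
    ext x
    simp only [Good, eventually_atTop, mem_ofPred_eq, mem_iInter, mem_union, mem_compl_iff,
      mem_iUnion, imp_iff_not_or]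
  rw [this]
  refine MeasurableSet.iInter fun i => MeasurableSet.iInter fun _ => MeasurableSet.iInter fun j =>
    MeasurableSet.iInter fun _ => ?_
  refine MeasurableSet.union (MeasurableSet.compl ?_) ?_
  · exact MeasurableSet.iUnion fun N => MeasurableSet.iInter fun n' => MeasurableSet.iInter fun _ =>
      h1 i j n'
  · exact MeasurableSet.iInter fun n' => MeasurableSet.iInter fun _ => h1 i j n'

theorem measurable_slow (E : X → X → Prop) (hE : Equivalence E) (s : ℕ → X → X)
    (hsm : ∀ i, Measurable (s i)) (hs : ∀ x y, E x y ↔ ∃ i, s i x = y)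
    (g : ℕ → ℕ → X → X → ℝ) (hg : ∀ m n, NM E (g m n)) (n : ℕ) :
    Measurable (slow s g n) := by
  classical
  apply measurable_findGreatest
  intro k _
  have : {x | ∀ m' < k, Good s g m' x n} = ⋂ m', ⋂ _ : m' < k, {x | Good s g m' x n} := by
    ext x
    simp
  rw [this]
  exact MeasurableSet.iInter fun m' => MeasurableSet.iInter fun _ =>
    measurableSet_good E hE s hsm hs g hg m' n

/-- **Diagonal lemma.** -/
theorem diagonal (E : X → X → Prop) (hE : CBER E) (g : ℕ → ℕ → X → X → ℝ)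
    (hg : ∀ m n, NM E (g m n)) :
    ∃ h : ℕ → X → X → ℝ, (∀ n, NM E (h n)) ∧ ∀ x y, E x y → ∀ c,
      (∀ᶠ m in atTop, ∀ᶠ n in atTop, D (g m n) x y ≤ c) → ∀ c' > c,
        ∀ᶠ n in atTop, D (h n) x y ≤ c' := by
  obtain ⟨s, hsm, hinv, hs⟩ := Pool.Agent.H139R3.FM.feldman_moore E hE.equiv hE.meas hE.count
  have hk : ∀ n, Measurable (lip s (slow s g n)) := fun n =>
    measurable_lip s hsm _ (measurable_slow E hE.equiv s hsm hs g hg n)
  refine ⟨fun n => comb (fun m => g m n) (lip s (slow s g n)),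
    fun n => NM_comb E _ (fun m => hg m n) _ (hk n), ?_⟩
  intro x y hxy c hc c' hc'
  obtain ⟨i, rfl⟩ := (hs x y).1 hxy
  -- a threshold strictly between `c` and `c'`
  obtain ⟨j, hj⟩ : ∃ j, denseSeq ℝ j ∈ Ioo c c' :=
    (denseRange_denseSeq ℝ).exists_mem_open isOpen_Ioo (nonempty_Ioo.2 hc')
  obtain ⟨M, hM⟩ := eventually_atTop.1 hc
  set M0 := max M (max i j) with hM0
  have hDle : ∀ m n, D (g m n) x (s i x) ≤ 2 := fun m n => (hg m n).D_le_two _ _
  have hD0 : ∀ m n, 0 ≤ D (g m n) x (s i x) := fun m n => D_nonneg _ _ _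
  -- `c` is nonnegative
  have hc0 : 0 ≤ c := by
    obtain ⟨n, hn⟩ := (hM M le_rfl).exists
    exact (hD0 M n).trans hn
  have hkt := tendsto_lip s (fun n => slow s g n) (fun x => tendsto_slow s g x) x
  -- the error terms
  have herr : Tendsto (fun k : ℕ => (2 * ((M0 : ℝ) + 1) + 2 * ((i : ℝ) + 1)) / ((k : ℝ) + 1))
      atTop (nhds 0) := by
    have h1 : Tendsto (fun k : ℕ => (k : ℝ) + 1) atTop atTop :=
      tendsto_atTop_add_const_right _ _ tendsto_natCast_atTop_atTop
    exact Tendsto.const_div_atTop h1 _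
  have herr' := herr.comp hkt
  have hpos : 0 < c' - denseSeq ℝ j := sub_pos.2 hj.2
  filter_upwards [herr'.eventually (gt_mem_nhds hpos)] with n hn
  refine (D_comb_le E (fun m => g m n) (fun m => hg m n) _ (hk n) x (s i x)).trans ?_
  set K := lip s (slow s g n) x with hK
  have hn' : (2 * ((M0 : ℝ) + 1) + 2 * ((i : ℝ) + 1)) / ((K : ℝ) + 1) < c' - denseSeq ℝ j := hn
  have hKpos : (0 : ℝ) < (K : ℝ) + 1 := by positivity
  -- the difference of the numbers of terms
  have hdiff : |(K : ℝ) - lip s (slow s g n) (s i x)| ≤ (i : ℝ) + 1 := by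
    have a := lip_step s (slow s g n) x i
    have b := lip_step' s hinv (slow s g n) x i
    rw [← hK] at a b
    have a' : (K : ℝ) ≤ (lip s (slow s g n) (s i x) : ℝ) + ((i : ℝ) + 1) := by exact_mod_cast a
    have b' : (lip s (slow s g n) (s i x) : ℝ) ≤ (K : ℝ) + ((i : ℝ) + 1) := by exact_mod_cast b
    rw [abs_le]
    constructor <;> linarith
  -- the sum
  have hgood : ∀ m, M0 ≤ m → m < K → D (g m n) x (s i x) ≤ denseSeq ℝ j := by
    intro m hm hmK
    have h1 : m < slow s g n x := lt_of_lt_of_le hmK (lip_le_self s _ x)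
    have h2 := slow_good s g n x m h1
    have hi : i ≤ m := le_trans (le_trans (le_max_left _ _) (le_max_right _ _)) hm
    have hj' : j ≤ m := le_trans (le_trans (le_max_right _ _) (le_max_right _ _)) hm
    refine h2 i hi j hj' ?_ n le_rfl
    filter_upwards [hM m ((le_max_left _ _).trans hm)] with n' hn'
    exact hn'.trans hj.1.le
  have hq0 : 0 ≤ denseSeq ℝ j := hc0.trans hj.1.le
  have hsum : ∑ m ∈ Finset.range (K + 1), D (g m n) x (s i x) ≤
      2 * ((M0 : ℝ) + 1) + ((K : ℝ) + 1) * denseSeq ℝ j := by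
    have h1 : ∀ m ∈ Finset.range (K + 1), D (g m n) x (s i x) ≤
        denseSeq ℝ j + (if m < M0 then 2 else 0) + (if m = K then 2 else 0) := by
      intro m hm
      have hm' : m ≤ K := by
        have := Finset.mem_range.1 hm
        omega
      by_cases h1 : m < M0
      · rw [if_pos h1]
        have : (0 : ℝ) ≤ if m = K then 2 else 0 := by split_ifs <;> norm_num
        have := hDle m n
        linarith
      · by_cases h2 : m = K
        · rw [if_neg h1, if_pos h2]
          have := hDle m n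
          linarith
        · rw [if_neg h1, if_neg h2]
          have := hgood m (not_lt.1 h1) (lt_of_le_of_ne hm' h2)
          linarith
    refine (Finset.sum_le_sum h1).trans ?_
    rw [Finset.sum_add_distrib, Finset.sum_add_distrib]
    have a1 : ∑ m ∈ Finset.range (K + 1), denseSeq ℝ j = ((K : ℝ) + 1) * denseSeq ℝ j := by
      rw [Finset.sum_const, Finset.card_range, nsmul_eq_mul]
      push_cast
      ring
    have a2 : ∑ m ∈ Finset.range (K + 1), (if m < M0 then (2 : ℝ) else 0) ≤ 2 * M0 := by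
      rw [← Finset.sum_filter, Finset.sum_const, nsmul_eq_mul, mul_comm]
      have : (Finset.filter (fun m => m < M0) (Finset.range (K + 1))).card ≤ M0 := by
        calc _ ≤ (Finset.range M0).card := Finset.card_le_card (by
              intro m hm
              rw [Finset.mem_filter] at hm
              exact Finset.mem_range.2 hm.2)
          _ = M0 := Finset.card_range _
      have : ((Finset.filter (fun m => m < M0) (Finset.range (K + 1))).card : ℝ) ≤ M0 := by
        exact_mod_cast this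
      linarith
    have a3 : ∑ m ∈ Finset.range (K + 1), (if m = K then (2 : ℝ) else 0) = 2 := by
      rw [Finset.sum_ite_eq' (Finset.range (K + 1)) K]
      rw [if_pos (Finset.mem_range.2 (Nat.lt_succ_self K))]
    rw [a1, a3]
    linarith
  have h1 : (∑ m ∈ Finset.range (K + 1), D (g m n) x (s i x)) / ((K : ℝ) + 1) ≤
      2 * ((M0 : ℝ) + 1) / ((K : ℝ) + 1) + denseSeq ℝ j := by
    rw [div_le_iff₀ hKpos, add_mul, div_mul_cancel₀ _ hKpos.ne']
    linarith
  have h2 : 2 * |(K : ℝ) - lip s (slow s g n) (s i x)| / ((K : ℝ) + 1) ≤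
      2 * ((i : ℝ) + 1) / ((K : ℝ) + 1) := by
    apply div_le_div_of_nonneg_right _ hKpos.le
    linarith
  have h3 : 2 * ((M0 : ℝ) + 1) / ((K : ℝ) + 1) + 2 * ((i : ℝ) + 1) / ((K : ℝ) + 1) =
      (2 * ((M0 : ℝ) + 1) + 2 * ((i : ℝ) + 1)) / ((K : ℝ) + 1) := by rw [add_div]
  linarith

end Pool.Agent.H656.Amen
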