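import Mathlib
import Pool.Agent.H656.AmenMain

set_option autoImplicit false
set_option linter.unusedSectionVars false

/-!
# Iterated Fréchet filters
-/

namespace Pool.Agent.H656.Amen

open Set MeasureTheory Filter

universe u

variable {X : Type u} [MeasurableSpace X]

/-- Approximate invariance along the filter `F` can be improved to approximate invariance along the
Fréchet filter. -/
def Improves (E : X → X → Prop) (F : Filter ℕ) : Prop :=
  ∀ f : ℕ → X → X → ℝ, (∀ n, NM E (f n)) → ∃ h : ℕ → X → X → ℝ, (∀ n, NM E (h n)) ∧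
    ∀ x y, E x y → ∀ c, (∀ᶠ n in F, D (f n) x y ≤ c) → ∀ c' > c, ∀ᶠ n in atTop, D (h n) x y ≤ c'

theorem improves_cofinite (E : X → X → Prop) : Improves E Filter.cofinite := by
  intro f hf
  refine ⟨f, hf, ?_⟩
  intro x y _ c hc c' hc'
  rw [Nat.cofinite_eq_atTop] at hc
  filter_upwards [hc] with n hn
  exact hn.trans hc'.le

variable [StandardBorelSpace X]

theorem improves_step (E : X → X → Prop) (hE : CBER E) (G : ℕ → Filter ℕ) (H : Filter ℕ)
    (p : ℕ → ℕ → ℕ) (hH : ∀ A : Set ℕ, A ∈ H → {m : ℕ | {n : ℕ | p m n ∈ A} ∈ G m} ∈ Filter.cofinite)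
    (hG : ∀ m, Improves E (G m)) : Improves E H := by
  intro f hf
  choose g hg1 hg2 using fun m => hG m (fun n => f (p m n)) (fun n => hf _)
  obtain ⟨h, hh1, hh2⟩ := diagonal E hE g hg1
  refine ⟨h, hh1, ?_⟩
  intro x y hxy c hc c' hc'
  have h1 := hH _ hc
  rw [Nat.cofinite_eq_atTop] at h1
  refine hh2 x y hxy ((c + c') / 2) ?_ c' (by linarith)
  filter_upwards [h1] with m hm
  exact hg2 m x y hxy c hm ((c + c') / 2) (by linarith)

/-- Increasing unions: each of the relations `E m` carries asymptotically invariant functions. -/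
theorem union_amenable (E : ℕ → X → X → Prop) (F : X → X → Prop) (hF : CBER F)
    (hEF : ∀ m x y, E m x y → F x y) (hU : ∀ x y, F x y → ∀ᶠ m in atTop, E m x y)
    (g : ℕ → ℕ → X → X → ℝ) (hg : ∀ m n, NM (E m) (g m n))
    (hD : ∀ m x y, E m x y → ∀ c > 0, ∀ᶠ n in atTop, D (g m n) x y ≤ c) :
    ∃ h : ℕ → X → X → ℝ, (∀ n, NM F (h n)) ∧ ∀ x y, F x y → ∀ c > 0,
      ∀ᶠ n in atTop, D (h n) x y ≤ c := by
  obtain ⟨h, hh1, hh2⟩ := diagonal F hF g (fun m n => (hg m n).mono (hEF m))
  refine ⟨h, hh1, ?_⟩
  intro x y hxy c hc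
  refine hh2 x y hxy (c / 2) ?_ c (by linarith)
  filter_upwards [hU x y hxy] with m hm
  exact hD m x y hm (c / 2) (by linarith)

/-! ### Passing between the two ways to write sums over classes -/

omit [StandardBorelSpace X] in
theorem hasSum_class (E : X → X → Prop) (u : X → ℝ) (x : X) (a : ℝ) (hu : ∀ z, ¬ E x z → u z = 0) :
    HasSum (fun y : {y : X // E x y} => u y.1) a ↔ HasSum u a := by
  have : HasSum (u ∘ ((↑) : {y | E x y} → X)) a ↔ HasSum ({y | E x y}.indicator u) a :=
    hasSum_subtype_iff_indicator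
  have e : {y | E x y}.indicator u = u := by
    apply indicator_eq_self.2
    intro z hz
    by_contra h
    exact hz (hu z h)
  rw [e] at this
  exact this

omit [StandardBorelSpace X] in
theorem tsum_class' (E : X → X → Prop) (u : X → ℝ) (x : X) (hu : ∀ z, ¬ E x z → u z = 0) :
    ∑' y : {y : X // E x y}, u y.1 = ∑' z, u z := by
  have e : {y | E x y}.indicator u = u := by
    apply indicator_eq_self.2
    intro z hz
    by_contra h
    exact hz (hu z h)
  have := tsum_subtype {y | E x y} u
  rw [e] at this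
  exact this

open Classical in
/-- Cut off outside the relation. -/
noncomputable def cut (E : X → X → Prop) (f : X × X → ℝ) (x y : X) : ℝ :=
  if E x y then f (x, y) else 0

omit [StandardBorelSpace X] in
theorem NM_cut (E : X → X → Prop) (hm : MeasurableSet {p : X × X | E p.1 p.2}) (f : X × X → ℝ)
    (hf : Measurable f) (h0 : ∀ p, 0 ≤ f p)
    (h1 : ∀ x, HasSum (fun y : {y : X // E x y} => f (x, y.1)) 1) : NM E (cut E f) := by
  classical
  constructor
  · have : (fun p : X × X => cut E f p.1 p.2) = fun p => if E p.1 p.2 then f p else 0 := by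
      funext p
      rfl
    rw [this]
    exact Measurable.ite hm hf measurable_const
  · intro x y
    unfold cut
    split_ifs
    · exact h0 _
    · exact le_rfl
  · intro x y hxy
    exact if_neg hxy
  · intro x
    rw [← hasSum_class E (cut E f x) x 1 (fun z hz => if_neg hz)]
    have : (fun y : {y : X // E x y} => cut E f x y.1) = fun y => f (x, y.1) := by
      funext y
      exact if_pos y.2
    rw [this]
    exact h1 x

omit [MeasurableSpace X] [StandardBorelSpace X] in
theorem D_cut (E : X → X → Prop) (hE : Equivalence E) (f : X × X → ℝ) (x y : X) (hxy : E x y) :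
    ∑' z : {z : X // E x z}, |f (x, z.1) - f (y, z.1)| = D (cut E f) x y := by
  classical
  unfold D
  have h0 : ∀ z, ¬ E x z → |cut E f x z - cut E f y z| = 0 := by
    intro z hz
    have hz' : ¬ E y z := fun h => hz (hE.trans hxy h)
    unfold cut
    rw [if_neg hz, if_neg hz']
    simp
  let : MeasurableSpace X := ⊤
  rw [← tsum_class' E (fun z => |cut E f x z - cut E f y z|) x h0]
  apply tsum_congr
  intro z
  unfold cut
  rw [if_pos z.2, if_pos (hE.trans (hE.symm hxy) z.2)]

omit [MeasurableSpace X] [StandardBorelSpace X] in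
theorem D_class (E : X → X → Prop) (hE : Equivalence E) (f : X → X → ℝ)
    (hf : ∀ x y, ¬ E x y → f x y = 0) (x y : X) (hxy : E x y) :
    ∑' z : {z : X // E x z}, |f x z.1 - f y z.1| = D f x y := by
  unfold D
  let : MeasurableSpace X := ⊤
  apply tsum_class' E (fun z => |f x z - f y z|) x
  intro z hz
  have hz' : ¬ E y z := fun h => hz (hE.trans hxy h)
  rw [hf _ _ hz, hf _ _ hz']
  simp

omit [MeasurableSpace X] [StandardBorelSpace X] in
theorem tendsto_D_iff (F : Filter ℕ) (d : ℕ → ℝ) (hd : ∀ n, 0 ≤ d n) :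
    Tendsto d F (nhds 0) ↔ ∀ c > 0, ∀ᶠ n in F, d n ≤ c := by
  constructor
  · intro h c hc
    filter_upwards [h.eventually (gt_mem_nhds hc)] with n hn
    exact le_of_lt hn
  · intro h
    rw [Metric.tendsto_nhds]
    intro e he
    filter_upwards [h (e / 2) (by linarith)] with n hn
    rw [Real.dist_eq, sub_zero, abs_of_nonneg (hd n)]
    linarith

end Pool.Agent.H656.Amen
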