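import Mathlib
import Pool.Agent.H656.AmenFilter

set_option autoImplicit false
set_option linter.unusedSectionVars false

/-!
# Iterated Fréchet filters: transfinite induction
-/

namespace Pool.Agent.H656.Amen

open Set MeasureTheory Filter

universe u

theorem lt_of_strictMono_iSup {s : ℕ → Ordinal.{0}} (hs : StrictMono s) {l : Ordinal.{0}}
    (hl : (⨆ k, s k) = l) (k : ℕ) : s k < l := by
  have h1 : s k < s (k + 1) := hs (Nat.lt_succ_self k)
  have h2 : s (k + 1) ≤ ⨆ k, s k := Ordinal.le_iSup s (k + 1)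
  rw [← hl]
  exact lt_of_lt_of_le h1 h2

/-- An induction principle. -/
theorem IsFrechetFamily.induct {p : ℕ → ℕ → ℕ} {Fr : Ordinal.{0} → Filter ℕ}
    (h : IsFrechetFamily p Fr) (P : Filter ℕ → Prop) (h1 : P Filter.cofinite)
    (h2 : ∀ (G : ℕ → Filter ℕ) (H : Filter ℕ), (∀ m, P (G m)) →
      (∀ A : Set ℕ, A ∈ H ↔ {m : ℕ | {n : ℕ | p m n ∈ A} ∈ G m} ∈ Filter.cofinite) → P H)
    (α : Ordinal.{0}) (h3 : 1 ≤ α) (h4 : α.card ≤ Cardinal.aleph0) : P (Fr α) := by
  induction α using WellFoundedLT.induction with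
  | _ α ih =>
    rcases Ordinal.zero_or_succ_or_isSuccLimit α with h0 | ⟨β, rfl⟩ | hl
    · exact absurd h3 (by rw [h0]; simp)
    · rcases eq_or_ne β 0 with hβ | hβ
      · subst hβ
        have : Order.succ (0 : Ordinal.{0}) = 1 := by simp
        rw [this, h.one]
        exact h1
      · have hβ1 : 1 ≤ β := Order.one_le_iff_pos.2 (pos_iff_ne_zero.2 hβ)
        have hlt : β < Order.succ β := Order.lt_succ β
        have hc : β.card ≤ Cardinal.aleph0 := (Ordinal.card_le_card hlt.le).trans h4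
        have := h.succ β hβ1 hc
        rw [Order.succ_eq_add_one]
        exact h2 (fun _ => Fr β) _ (fun _ => ih β hlt hβ1 hc) this
    · obtain ⟨s, hs, hs1, hsl, hA⟩ := h.limit α hl h4
      refine h2 (fun m => Fr (s m)) _ (fun m => ?_) hA
      have hlt := lt_of_strictMono_iSup hs hsl m
      exact ih (s m) hlt (hs1 m) ((Ordinal.card_le_card hlt.le).trans h4)

theorem IsFrechetFamily.le_cofinite {p : ℕ → ℕ → ℕ} {Fr : Ordinal.{0} → Filter ℕ}
    (h : IsFrechetFamily p Fr) (hp : ∀ m, Function.Injective (p m))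
    (α : Ordinal.{0}) (h3 : 1 ≤ α) (h4 : α.card ≤ Cardinal.aleph0) : Fr α ≤ Filter.cofinite := by
  refine h.induct (fun F => F ≤ Filter.cofinite) le_rfl ?_ α h3 h4
  intro G H hG hH A hA
  rw [hH]
  have : {m : ℕ | {n : ℕ | p m n ∈ A} ∈ G m} = univ := by
    ext m
    simp only [mem_univ, iff_true]
    apply hG m
    rw [Filter.mem_cofinite] at hA ⊢
    exact hA.preimage (hp m).injOn
  rw [this]
  exact Filter.univ_mem

variable {X : Type u} [MeasurableSpace X] [StandardBorelSpace X]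

theorem IsFrechetFamily.improves {p : ℕ → ℕ → ℕ} {Fr : Ordinal.{0} → Filter ℕ}
    (h : IsFrechetFamily p Fr) (E : X → X → Prop) (hE : CBER E)
    (α : Ordinal.{0}) (h3 : 1 ≤ α) (h4 : α.card ≤ Cardinal.aleph0) : Improves E (Fr α) :=
  h.induct (fun F => Improves E F) (improves_cofinite E)
    (fun G H hG hH => improves_step E hE G H p (fun A hA => (hH A).1 hA) hG) α h3 h4

theorem FAmenable.exists_NM {E : X → X → Prop} (hE : CBER E) {F : Filter ℕ} (h : FAmenable E F) :
    ∃ g : ℕ → X → X → ℝ, (∀ n, NM E (g n)) ∧ ∀ x y, E x y → ∀ c > 0, ∀ᶠ n in F, D (g n) x y ≤ c := by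
  obtain ⟨f, h1, h2, h3, h4⟩ := h
  refine ⟨fun n => cut E (f n), fun n => NM_cut E hE.meas (f n) (h1 n) (h2 n) (h3 n), ?_⟩
  intro x y hxy
  have := h4 x y hxy
  simp_rw [D_cut E hE.equiv _ x y hxy] at this
  exact (tendsto_D_iff F _ (fun n => D_nonneg _ _ _)).1 this

theorem FAmenable.of_NM {E : X → X → Prop} (hE : CBER E) {F : Filter ℕ}
    (g : ℕ → X → X → ℝ) (hg : ∀ n, NM E (g n))
    (h : ∀ x y, E x y → ∀ c > 0, ∀ᶠ n in F, D (g n) x y ≤ c) : FAmenable E F := by
  refine ⟨fun n p => g n p.1 p.2, fun n => (hg n).meas, fun n p => (hg n).nonneg _ _, ?_, ?_⟩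
  · intro n x
    exact (hasSum_class E (g n x) x 1 ((hg n).supp x)).2 ((hg n).sum x)
  · intro x y hxy
    have : (fun n => ∑' z : {z : X // E x z}, |g n x z.1 - g n y z.1|) = fun n => D (g n) x y := by
      funext n
      exact D_class E hE.equiv (g n) (hg n).supp x y hxy
    show Tendsto (fun n => ∑' z : {z : X // E x z}, |g n x z.1 - g n y z.1|) F (nhds 0)
    rw [this]
    exact (tendsto_D_iff F _ (fun n => D_nonneg _ _ _)).2 (h x y hxy)

theorem FAmenable.of_improves {E : X → X → Prop} (hE : CBER E) {F : Filter ℕ}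
    (hF : Improves E F) (h : FAmenable E F) : FAmenable E Filter.cofinite := by
  obtain ⟨g, hg1, hg2⟩ := h.exists_NM hE
  obtain ⟨k, hk1, hk2⟩ := hF g hg1
  refine FAmenable.of_NM hE k hk1 ?_
  intro x y hxy c hc
  rw [Nat.cofinite_eq_atTop]
  exact hk2 x y hxy (c / 2) (hg2 x y hxy (c / 2) (by linarith)) c (by linarith)

theorem FAmenable.mono {E : X → X → Prop} {F G : Filter ℕ} (hFG : F ≤ G) (h : FAmenable E G) :
    FAmenable E F := by
  obtain ⟨f, h1, h2, h3, h4⟩ := h
  exact ⟨f, h1, h2, h3, fun x y hxy => (h4 x y hxy).mono_left hFG⟩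

/-- An increasing union of amenable relations is amenable. -/
theorem FAmenable.union (E : ℕ → X → X → Prop) (hE : ∀ i, CBER (E i))
    (hinc : ∀ i x y, E i x y → E (i + 1) x y) (h : ∀ i, FAmenable (E i) Filter.cofinite) :
    FAmenable (fun x y => ∃ i, E i x y) Filter.cofinite := by
  have hmono : ∀ i j, i ≤ j → ∀ x y, E i x y → E j x y := by
    intro i j hij x y hxy
    induction j, hij using Nat.le_induction with
    | base => exact hxy
    | succ j _ ih => exact hinc j x y ih
  have hF : CBER (fun x y => ∃ i, E i x y) := by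
    refine ⟨⟨fun x => ⟨0, (hE 0).equiv.refl x⟩, ?_, ?_⟩, ?_, ?_⟩
    · rintro x y ⟨i, hi⟩
      exact ⟨i, (hE i).equiv.symm hi⟩
    · rintro x y z ⟨i, hi⟩ ⟨j, hj⟩
      exact ⟨max i j, (hE _).equiv.trans (hmono i _ (le_max_left _ _) _ _ hi)
        (hmono j _ (le_max_right _ _) _ _ hj)⟩
    · have : {p : X × X | ∃ i, E i p.1 p.2} = ⋃ i, {p : X × X | E i p.1 p.2} := by
        ext p
        simp
      rw [this]
      exact MeasurableSet.iUnion fun i => (hE i).meas
    · intro x
      have : {y | ∃ i, E i x y} = ⋃ i, {y | E i x y} := by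
        ext y
        simp
      rw [this]
      exact Set.countable_iUnion fun i => (hE i).count x
  choose g hg1 hg2 using fun i => (h i).exists_NM (hE i)
  obtain ⟨k, hk1, hk2⟩ := union_amenable E (fun x y => ∃ i, E i x y) hF
    (fun m x y hxy => ⟨m, hxy⟩)
    (fun x y ⟨i, hi⟩ => by
      filter_upwards [eventually_ge_atTop i] with m hm
      exact hmono i m hm x y hi) g hg1
    (fun m x y hxy c hc => by
      have := hg2 m x y hxy c hc
      rwa [Nat.cofinite_eq_atTop] at this)
  refine FAmenable.of_NM hF k hk1 ?_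
  intro x y hxy c hc
  rw [Nat.cofinite_eq_atTop]
  exact hk2 x y hxy c hc

end Pool.Agent.H656.Amen
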