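import Mathlib

/-! Partitions of a finite-dimensional normed space (dimension at least two) into few continua:
the filled members containing a given point form a countable chain. -/

set_option autoImplicit false

namespace Pool.Agent.H656.PlanePart

open Set Topology MeasureTheory Cardinal

set_option linter.unusedSectionVars false
set_option linter.style.haveILetI false

variable {E : Type} [NormedAddCommGroup E] [NormedSpace ℝ E]

/-- the complement of the closed ball of radius `r` around `0` -/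
def K (E : Type) [NormedAddCommGroup E] (r : ℝ) : Set E := {x | r < ‖x‖}

lemma K_mono {r s : ℝ} (h : r ≤ s) : K E s ⊆ K E r := fun _ hx => lt_of_le_of_lt h hx

lemma K_preconnected (hE : 1 < Module.rank ℝ E) {r : ℝ} (hr : 0 ≤ r) : IsPreconnected (K E r) := by
  have h1 : IsPreconnected (Metric.sphere (0 : E) 1) := isPreconnected_sphere hE 0 1
  have h2 : IsPreconnected (Set.Ioi r) := isPreconnected_Ioi
  have h3 := h2.prod h1
  have h4 := h3.image (fun p : ℝ × E => p.1 • p.2) (by fun_prop)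
  convert h4 using 1
  ext x
  constructor
  · intro hx
    have hx' : r < ‖x‖ := hx
    have hx0 : 0 < ‖x‖ := lt_of_le_of_lt hr hx'
    refine ⟨(‖x‖, ‖x‖⁻¹ • x), ⟨hx', ?_⟩, ?_⟩
    · simp [norm_smul, hx0.ne']
    · simp [smul_smul, hx0.ne']
  · rintro ⟨⟨t, u⟩, ⟨ht, hu⟩, rfl⟩
    have ht' : r < t := ht
    have hu' : ‖u‖ = 1 := by simpa using hu
    show r < ‖t • u‖
    rw [norm_smul, hu', mul_one, Real.norm_eq_abs]
    exact lt_of_lt_of_le ht' (le_abs_self t)

lemma K_nonempty (hE : 1 < Module.rank ℝ E) (r : ℝ) : (K E r).Nonempty := by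
  haveI : Nontrivial E := by
    rw [← rank_pos_iff_nontrivial (R := ℝ)]
    exact lt_trans zero_lt_one hE
  obtain ⟨x, hx⟩ := NormedSpace.exists_lt_norm ℝ E r
  exact ⟨x, hx⟩

/-- the component of the complement of `G` which contains a neighbourhood of infinity -/
def V (G : Set E) : Set E := {x | x ∈ Gᶜ ∧ ∃ r : ℝ, K E r ⊆ connectedComponentIn Gᶜ x}

lemma exists_K {G : Set E} (hG : IsCompact G) : ∃ R : ℝ, 0 ≤ R ∧ K E R ⊆ Gᶜ := by
  obtain ⟨R, hR⟩ := hG.isBounded.subset_closedBall (0 : E)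
  refine ⟨max R 0, le_max_right _ _, fun x hx hxG => ?_⟩
  have h1 : ‖x‖ ≤ R := by simpa using hR hxG
  have h2 : max R 0 < ‖x‖ := hx
  exact absurd (lt_of_le_of_lt (le_max_left R 0) h2) (not_lt.2 h1)

lemma V_eq (hE : 1 < Module.rank ℝ E) {G : Set E} {R : ℝ} (hR0 : 0 ≤ R) (hR : K E R ⊆ Gᶜ) {p : E} (hp : p ∈ K E R) :
    V G = connectedComponentIn Gᶜ p := by
  have hK : K E R ⊆ connectedComponentIn Gᶜ p :=
    (K_preconnected hE hR0).subset_connectedComponentIn hp hR
  ext x
  constructor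
  · rintro ⟨hx, r, hr⟩
    obtain ⟨q, hq⟩ := K_nonempty hE (max r R)
    have h1 : q ∈ connectedComponentIn Gᶜ x := hr (K_mono (le_max_left _ _) hq)
    have h2 : q ∈ connectedComponentIn Gᶜ p := hK (K_mono (le_max_right _ _) hq)
    rw [connectedComponentIn_eq h2, ← connectedComponentIn_eq h1]
    exact mem_connectedComponentIn hx
  · intro hx
    refine ⟨connectedComponentIn_subset _ _ hx, R, ?_⟩
    rw [← connectedComponentIn_eq hx]
    exact hK

lemma V_data (hE : 1 < Module.rank ℝ E) {G : Set E} (hG : IsCompact G) :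
    ∃ R : ℝ, 0 ≤ R ∧ K E R ⊆ V G ∧ ∃ p ∈ Gᶜ, V G = connectedComponentIn Gᶜ p := by
  obtain ⟨R, hR0, hR⟩ := exists_K hG
  obtain ⟨p, hp⟩ := K_nonempty hE R
  have h := V_eq hE hR0 hR hp
  refine ⟨R, hR0, ?_, p, hR hp, h⟩
  rw [h]
  exact (K_preconnected hE hR0).subset_connectedComponentIn hp hR

lemma V_subset_compl {G : Set E} : V G ⊆ Gᶜ := fun _ hx => hx.1

lemma isOpen_V (hE : 1 < Module.rank ℝ E) {G : Set E} (hG : IsCompact G) : IsOpen (V G) := by
  obtain ⟨R, -, -, p, -, h⟩ := V_data hE hG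
  rw [h]
  exact hG.isClosed.isOpen_compl.connectedComponentIn

lemma subset_V (hE : 1 < Module.rank ℝ E) {G S : Set E} (hG : IsCompact G) (hS : IsPreconnected S) (hSG : S ⊆ Gᶜ)
    (hne : (S ∩ V G).Nonempty) : S ⊆ V G := by
  obtain ⟨R, -, -, p, -, h⟩ := V_data hE hG
  obtain ⟨y, hyS, hyV⟩ := hne
  rw [h] at hyV ⊢
  rw [connectedComponentIn_eq hyV]
  exact hS.subset_connectedComponentIn hyS hSG

/-- the union of the other components of the complement -/
def inner (G : Set E) : Set E := Gᶜ \ V G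

/-- the filled set -/
def fill (G : Set E) : Set E := (V G)ᶜ

lemma inner_subset_fill {G : Set E} : inner G ⊆ fill G := fun _ hx => hx.2

lemma subset_fill {G : Set E} : G ⊆ fill G := fun _ hx hV => hV.1 hx

lemma comp_disj (hE : 1 < Module.rank ℝ E) {G : Set E} (hG : IsCompact G) {x : E} (hx : x ∈ Gᶜ) (hxV : x ∉ V G) :
    connectedComponentIn Gᶜ x ⊆ inner G := by
  intro y hy
  refine ⟨connectedComponentIn_subset _ _ hy, fun hyV => hxV ?_⟩
  exact subset_V hE hG isPreconnected_connectedComponentIn (connectedComponentIn_subset _ _) ⟨y, hy, hyV⟩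
    (mem_connectedComponentIn hx)

lemma isOpen_inner (hE : 1 < Module.rank ℝ E) {G : Set E} (hG : IsCompact G) : IsOpen (inner G) := by
  rw [isOpen_iff_mem_nhds]
  intro x hx
  have h1 : connectedComponentIn Gᶜ x ∈ 𝓝 x :=
    hG.isClosed.isOpen_compl.connectedComponentIn.mem_nhds (mem_connectedComponentIn hx.1)
  exact Filter.mem_of_superset h1 (comp_disj hE hG hx.1 hx.2)

lemma comp_union {G : Set E} (hG : IsCompact G) (hGc : IsConnected G) {x : E} (hx : x ∈ Gᶜ) :
    IsPreconnected (connectedComponentIn Gᶜ x ∪ G) := by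
  set C := connectedComponentIn Gᶜ x with hC
  have hCp : IsPreconnected C := isPreconnected_connectedComponentIn
  have hxC : x ∈ C := mem_connectedComponentIn hx
  have hne : (closure C ∩ G).Nonempty := by
    by_contra hemp
    have h1 : closure C ⊆ Gᶜ := fun y hy hyG => hemp ⟨y, hy, hyG⟩
    have h2 : closure C ⊆ C := hCp.closure.subset_connectedComponentIn (subset_closure hxC) h1
    have h3 : IsClosed C := by
      rw [← closure_subset_iff_isClosed]
      exact h2
    have h4 : IsOpen C := hG.isClosed.isOpen_compl.connectedComponentIn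
    have h5 : C = Set.univ := IsClopen.eq_univ ⟨h3, h4⟩ ⟨x, hxC⟩
    obtain ⟨g, hg⟩ := hGc.nonempty
    have h6 : g ∈ C := by rw [h5]; trivial
    exact connectedComponentIn_subset _ _ h6 hg
  obtain ⟨g, hgC, hgG⟩ := hne
  have h1 : IsPreconnected (C ∪ {g}) :=
    hCp.subset_closure subset_union_left
      (union_subset subset_closure (singleton_subset_iff.2 hgC))
  have h2 : IsPreconnected ((C ∪ {g}) ∪ G) :=
    IsPreconnected.union g (Or.inr rfl) hgG h1 hGc.isPreconnected
  have h3 : (C ∪ {g}) ∪ G = C ∪ G := by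
    ext y
    simp only [mem_union, mem_singleton_iff]
    constructor
    · rintro ((h | h) | h)
      · exact Or.inl h
      · right; rw [h]; exact hgG
      · exact Or.inr h
    · rintro (h | h)
      · exact Or.inl (Or.inl h)
      · exact Or.inr h
  rwa [h3] at h2

lemma fill_sub (hE : 1 < Module.rank ℝ E) {G G' : Set E} (hG : IsCompact G) (hGc : IsConnected G)
    (hG' : IsCompact G') (h : G' ⊆ inner G) : fill G' ⊆ inner G := by
  obtain ⟨R, hR0, hR, p, hp, hV⟩ := V_data hE hG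
  obtain ⟨R', hR0', hR', -⟩ := V_data hE hG'
  have h1 : IsPreconnected (V G ∪ G) := by
    rw [hV]
    exact comp_union hG hGc hp
  have h2 : V G ∪ G ⊆ V G' := by
    apply subset_V hE hG' h1
    · rintro y (hy | hy) hy'
      · exact (h hy').2 hy
      · exact (h hy').1 hy
    · obtain ⟨q, hq⟩ := K_nonempty hE (max R R')
      exact ⟨q, Or.inl (hR (K_mono (le_max_left _ _) hq)), hR' (K_mono (le_max_right _ _) hq)⟩
  intro x hx
  exact ⟨fun hxG => hx (h2 (Or.inr hxG)), fun hxV => hx (h2 (Or.inl hxV))⟩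

lemma chain (hE : 1 < Module.rank ℝ E) {G G' : Set E} (hG : IsCompact G) (hGc : IsConnected G)
    (hG' : IsCompact G') (hGc' : IsConnected G') (hd : Disjoint G G') {x : E} (hx : x ∈ fill G) (hx' : x ∈ fill G') :
    fill G' ⊆ inner G ∨ fill G ⊆ inner G' := by
  have hd1 : G ⊆ G'ᶜ := fun y hy hy' => (Set.disjoint_left.1 hd) hy hy'
  have hd2 : G' ⊆ Gᶜ := fun y hy hy' => (Set.disjoint_left.1 hd) hy' hy
  by_cases h1 : (G' ∩ V G).Nonempty
  · have h1' : G' ⊆ V G := subset_V hE hG hGc'.isPreconnected hd2 h1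
    by_cases h2 : (G ∩ V G').Nonempty
    · exfalso
      have h2' : G ⊆ V G' := subset_V hE hG' hGc.isPreconnected hd1 h2
      have hxG : x ∈ Gᶜ := fun h => hx' (h2' h)
      have h3 := comp_union hG hGc hxG
      have h4 : connectedComponentIn Gᶜ x ∪ G ⊆ V G' := by
        apply subset_V hE hG' h3
        · rintro y (hy | hy) hy'
          · exact (comp_disj hE hG hxG hx hy).2 (h1' hy')
          · exact hd1 hy hy'
        · obtain ⟨g, hg⟩ := hGc.nonempty
          exact ⟨g, Or.inr hg, h2' hg⟩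
      exact hx' (h4 (Or.inl (mem_connectedComponentIn hxG)))
    · right
      exact fill_sub hE hG' hGc' hG (fun y hy => ⟨hd1 hy, fun hyV => h2 ⟨y, hy, hyV⟩⟩)
  · left
    exact fill_sub hE hG hGc hG' (fun y hy => ⟨hd2 hy, fun hyV => h1 ⟨y, hy, hyV⟩⟩)

lemma fill_compact [FiniteDimensional ℝ E] (hE : 1 < Module.rank ℝ E) {G : Set E} (hG : IsCompact G) :
    IsCompact (fill G) := by
  haveI : ProperSpace E := FiniteDimensional.proper ℝ E
  obtain ⟨R, hR0, hR, -⟩ := V_data hE hG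
  apply Metric.isCompact_of_isClosed_isBounded (isOpen_V hE hG).isClosed_compl
  apply (Metric.isBounded_closedBall (x := (0 : E)) (r := R)).subset
  intro x hx
  by_contra hxR
  exact hx (hR (by simpa [K] using hxR))

variable [FiniteDimensional ℝ E] [MeasurableSpace E] [BorelSpace E]

/-- the volume of the filled set -/
noncomputable def phi (μ : Measure E) (G : Set E) : ℝ := (μ (fill G)).toReal

lemma phi_lt (hE : 1 < Module.rank ℝ E) (μ : Measure E) [μ.IsOpenPosMeasure] [IsFiniteMeasureOnCompacts μ]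
    {G G' : Set E} (hG : IsCompact G) (hG' : IsCompact G') (hne : G'.Nonempty) (h : fill G' ⊆ inner G) :
    phi μ G' < phi μ G := by
  have hU : IsOpen (inner G \ fill G') := (isOpen_inner hE hG).sdiff (fill_compact hE hG').isClosed
  have hUne : (inner G \ fill G').Nonempty := by
    by_contra hemp
    have h1 : inner G = fill G' := by
      apply Subset.antisymm _ h
      intro y hy
      by_contra hy'
      exact hemp ⟨y, hy, hy'⟩
    have h2 : IsClopen (inner G) := ⟨by rw [h1]; exact (fill_compact hE hG').isClosed, isOpen_inner hE hG⟩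
    have h3 : inner G = Set.univ := by
      apply h2.eq_univ
      rw [h1]
      exact hne.mono subset_fill
    obtain ⟨R, -, hR, -⟩ := V_data hE hG
    obtain ⟨q, hq⟩ := K_nonempty hE R
    have h4 : q ∈ inner G := by rw [h3]; trivial
    exact h4.2 (hR hq)
  have hpos : 0 < μ (inner G \ fill G') := hU.measure_pos μ hUne
  have hfin : μ (fill G) < ⊤ := (fill_compact hE hG).measure_lt_top
  have hfin' : μ (fill G') < ⊤ := (fill_compact hE hG').measure_lt_top
  have hle : μ (fill G') + μ (inner G \ fill G') ≤ μ (fill G) := by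
    rw [← measure_union disjoint_sdiff_right hU.measurableSet]
    exact measure_mono (union_subset (h.trans inner_subset_fill) (sdiff_subset.trans inner_subset_fill))
  have hlt : μ (fill G') < μ (fill G) :=
    lt_of_lt_of_le (ENNReal.lt_add_right hfin'.ne hpos.ne') hle
  exact (ENNReal.toReal_lt_toReal hfin'.ne hfin.ne).2 hlt

/-- the two-sided limit points of `L` outside `L` -/
def cutSet (L : Set ℝ) : Set ℝ :=
  {z | z ∉ L ∧ (∀ ε > 0, ∃ l ∈ L, z - ε < l ∧ l < z) ∧ (∀ ε > 0, ∃ l ∈ L, z < l ∧ l < z + ε)}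

omit E in
lemma cuts (L : Set ℝ) (hL : ¬ L.Countable) (hc : #L < 𝔠) : 𝔠 ≤ #(cutSet L) := by
  have hK : IsClosed (closure L) := isClosed_closure
  have hKc : ¬ (closure L).Countable := fun h => hL (h.mono subset_closure)
  obtain ⟨f, hf, -, hinj⟩ := hK.exists_nat_bool_injection_of_not_countable hKc
  have hcard : 𝔠 ≤ #(closure L) := by
    have h1 : #(ℕ → Bool) ≤ #(closure L) :=
      Cardinal.mk_le_of_injective (f := fun b => (⟨f b, hf ⟨b, rfl⟩⟩ : closure L))
        (fun a b hab => hinj (by simpa using hab))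
    have h2 : #(ℕ → Bool) = 𝔠 := by simp
    rwa [h2] at h1
  set O1 : Set ℝ := {x ∈ closure L | 𝓝[closure L ∩ Ioi x] x = ⊥} with hO1
  set O2 : Set ℝ := {x ∈ closure L | 𝓝[closure L ∩ Iio x] x = ⊥} with hO2
  have hO1c : O1.Countable := countable_setOfPred_isolated_right_within
  have hO2c : O2.Countable := countable_setOfPred_isolated_left_within
  have hsub : closure L ⊆ ((L ∪ O1) ∪ O2) ∪ cutSet L := by
    intro z hz
    by_cases hzL : z ∈ L
    · exact Or.inl (Or.inl (Or.inl hzL))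
    by_cases hz1 : z ∈ O1
    · exact Or.inl (Or.inl (Or.inr hz1))
    by_cases hz2 : z ∈ O2
    · exact Or.inl (Or.inr hz2)
    right
    refine ⟨hzL, ?_, ?_⟩
    · intro ε hε
      have h1 : 𝓝[closure L ∩ Iio z] z ≠ ⊥ := fun h => hz2 ⟨hz, h⟩
      have h2 : z ∈ closure (closure L ∩ Iio z) := mem_closure_iff_nhdsWithin_neBot.2 ⟨h1⟩
      obtain ⟨k, hk1, hk2, hk3⟩ := mem_closure_iff.1 h2 (Ioo (z - ε) (z + ε)) isOpen_Ioo
        ⟨by linarith, by linarith⟩
      obtain ⟨l, hl1, hl2⟩ := mem_closure_iff.1 hk2 (Ioo (z - ε) z) isOpen_Ioo ⟨hk1.1, hk3⟩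
      exact ⟨l, hl2, hl1.1, hl1.2⟩
    · intro ε hε
      have h1 : 𝓝[closure L ∩ Ioi z] z ≠ ⊥ := fun h => hz1 ⟨hz, h⟩
      have h2 : z ∈ closure (closure L ∩ Ioi z) := mem_closure_iff_nhdsWithin_neBot.2 ⟨h1⟩
      obtain ⟨k, hk1, hk2, hk3⟩ := mem_closure_iff.1 h2 (Ioo (z - ε) (z + ε)) isOpen_Ioo
        ⟨by linarith, by linarith⟩
      obtain ⟨l, hl1, hl2⟩ := mem_closure_iff.1 hk2 (Ioo z (z + ε)) isOpen_Ioo ⟨hk3, hk1.2⟩
      exact ⟨l, hl2, hl1.1, hl1.2⟩
  by_contra hlt
  rw [not_le] at hlt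
  have hal : ℵ₀ ≤ 𝔠 := aleph0_le_continuum
  have hO1' : #O1 < 𝔠 := lt_of_le_of_lt hO1c.le_aleph0 aleph0_lt_continuum
  have hO2' : #O2 < 𝔠 := lt_of_le_of_lt hO2c.le_aleph0 aleph0_lt_continuum
  have h1 : #(L ∪ O1 : Set ℝ) < 𝔠 := lt_of_le_of_lt (mk_union_le _ _) (add_lt_of_lt hal hc hO1')
  have h2 : #((L ∪ O1) ∪ O2 : Set ℝ) < 𝔠 := lt_of_le_of_lt (mk_union_le _ _) (add_lt_of_lt hal h1 hO2')
  have h3 : #(((L ∪ O1) ∪ O2) ∪ cutSet L : Set ℝ) < 𝔠 :=
    lt_of_le_of_lt (mk_union_le _ _) (add_lt_of_lt hal h2 hlt)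
  exact absurd (lt_of_le_of_lt (mk_le_mk_of_subset hsub) h3) (not_lt.2 hcard)

/-- **Chain lemma.** In a partition into fewer than continuum many connected sets, only countably many
compact members have a filled set containing a given point. -/
theorem countable_chain (hE : 1 < Module.rank ℝ E) (𝒢 : Set (Set E))
    (hconn : ∀ G ∈ 𝒢, IsConnected G)
    (hdisj : ∀ G ∈ 𝒢, ∀ G' ∈ 𝒢, G ≠ G' → Disjoint G G') (hcov : ∀ x : E, ∃ G ∈ 𝒢, x ∈ G)
    (hcard : #𝒢 < 𝔠) (x₀ : E) : {G ∈ 𝒢 | IsCompact G ∧ x₀ ∈ fill G}.Countable := by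
  classical
  set μ : Measure E := MeasureTheory.Measure.addHaar with hμ
  set 𝒞 : Set (Set E) := {G ∈ 𝒢 | IsCompact G ∧ x₀ ∈ fill G} with h𝒞
  -- comparability
  have hcmp : ∀ G ∈ 𝒞, ∀ G' ∈ 𝒞, G ≠ G' → fill G' ⊆ inner G ∨ fill G ⊆ inner G' := fun G hG G' hG' hne =>
    chain hE hG.2.1 (hconn G hG.1) hG'.2.1 (hconn G' hG'.1) (hdisj G hG.1 G' hG'.1 hne) hG.2.2 hG'.2.2
  have hlt : ∀ G ∈ 𝒞, ∀ G' ∈ 𝒞, fill G' ⊆ inner G → phi μ G' < phi μ G := fun G hG G' hG' h =>
    phi_lt hE μ hG.2.1 hG'.2.1 (hconn G' hG'.1).nonempty h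
  have hsub : ∀ G ∈ 𝒞, ∀ G' ∈ 𝒞, phi μ G' < phi μ G → fill G' ⊆ inner G := by
    intro G hG G' hG' h
    have hne : G ≠ G' := by rintro rfl; exact lt_irrefl _ h
    rcases hcmp G hG G' hG' hne with h1 | h1
    · exact h1
    · exact absurd (hlt G' hG' G hG h1) (not_lt.2 h.le)
  have hinj : InjOn (phi μ) 𝒞 := by
    intro G hG G' hG' h
    by_contra hne
    rcases hcmp G hG G' hG' hne with h1 | h1
    · exact absurd (hlt G hG G' hG' h1) (by rw [h]; exact lt_irrefl _)
    · exact absurd (hlt G' hG' G hG h1) (by rw [h]; exact lt_irrefl _)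
  by_contra hunc
  set L : Set ℝ := phi μ '' 𝒞 with hL
  have hLunc : ¬ L.Countable := fun h => hunc (countable_of_injective_of_countable_image hinj h)
  have hLc : #L < 𝔠 := by
    apply lt_of_le_of_lt mk_image_le
    exact lt_of_le_of_lt (mk_le_mk_of_subset (sep_subset _ _)) hcard
  have hT := cuts L hLunc hLc
  -- the point of a cut
  have hpt : ∀ z : cutSet L, ∃ H ∈ 𝒢, ∃ y ∈ H, (∀ G ∈ 𝒞, z.1 < phi μ G → y ∈ inner G) ∧
      (∀ G ∈ 𝒞, phi μ G < z.1 → y ∈ V G) := by
    rintro ⟨z, hzL, hzl, hzr⟩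
    set Y : Set E := {x | ∃ G ∈ 𝒞, phi μ G < z ∧ x ∈ fill G} with hY
    have hYo : IsOpen Y := by
      rw [isOpen_iff_mem_nhds]
      rintro x ⟨G, hG, hGz, hxG⟩
      obtain ⟨l, ⟨G', hG', rfl⟩, h1, h2⟩ := hzl (z - phi μ G) (by linarith)
      have h3 : phi μ G < phi μ G' := by linarith
      have h4 : fill G ⊆ inner G' := hsub G' hG' G hG h3
      apply Filter.mem_of_superset ((isOpen_inner hE hG'.2.1).mem_nhds (h4 hxG))
      intro w hw
      exact ⟨G', hG', h2, inner_subset_fill hw⟩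
    have hYne : Y.Nonempty := by
      obtain ⟨l, ⟨G, hG, rfl⟩, -, h2⟩ := hzl 1 one_pos
      exact ⟨x₀, G, hG, h2, hG.2.2⟩
    have hYsub : ∀ G ∈ 𝒞, z < phi μ G → closure Y ⊆ inner G := by
      intro G hG hzG
      obtain ⟨l, ⟨G', hG', rfl⟩, h1, h2⟩ := hzr (phi μ G - z) (by linarith)
      have h3 : phi μ G' < phi μ G := by linarith
      have h4 : Y ⊆ fill G' := by
        rintro x ⟨G'', hG'', h5, hx⟩
        exact inner_subset_fill (hsub G' hG' G'' hG'' (by linarith) hx)
      have h5 : closure Y ⊆ fill G' := closure_minimal h4 (fill_compact hE hG'.2.1).isClosed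
      exact h5.trans (hsub G hG G' hG' h3)
    have hex : ∃ y ∈ closure Y, y ∉ Y := by
      by_contra hno
      push Not at hno
      have h1 : IsClosed Y := closure_subset_iff_isClosed.1 hno
      have h2 : Y = Set.univ := IsClopen.eq_univ ⟨h1, hYo⟩ hYne
      obtain ⟨l, ⟨G, hG, rfl⟩, h3, -⟩ := hzr 1 one_pos
      obtain ⟨R, -, hR, -⟩ := V_data hE hG.2.1
      obtain ⟨q, hq⟩ := K_nonempty hE R
      have h4 : q ∈ Y := by rw [h2]; trivial
      exact (hYsub G hG h3 (subset_closure h4)).2 (hR hq)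
    obtain ⟨y, hyc, hyY⟩ := hex
    obtain ⟨H, hH, hyH⟩ := hcov y
    refine ⟨H, hH, y, hyH, fun G hG hzG => hYsub G hG hzG hyc, fun G hG hGz => ?_⟩
    by_contra hyV
    exact hyY ⟨G, hG, hGz, hyV⟩
  choose H hH y hyH hy1 hy2 using hpt
  have hHinj : Function.Injective (fun z : cutSet L => (⟨H z, hH z⟩ : 𝒢)) := by
    have key : ∀ z z' : cutSet L, z.1 < z'.1 → H z ≠ H z' := by
      intro z z' hzz' heq
      obtain ⟨l, ⟨G, hG, rfl⟩, h1, h2⟩ := z.2.2.2 (z'.1 - z.1) (by linarith)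
      have h3 : y z ∈ inner G := hy1 z G hG h1
      have h4 : y z' ∈ V G := hy2 z' G hG (by linarith)
      have hne : H z ≠ G := by
        intro h
        exact h3.1 (h ▸ hyH z)
      have hd := hdisj (H z) (hH z) G hG.1 hne
      have h5 : H z ⊆ V G := by
        apply subset_V hE hG.2.1 (hconn _ (hH z)).isPreconnected
        · intro w hw hwG
          exact Set.disjoint_left.1 hd hw hwG
        · exact ⟨y z', by rw [heq]; exact hyH z', h4⟩
      exact h3.2 (h5 (hyH z))
    intro z z' hzz'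
    have h : H z = H z' := by simpa using hzz'
    by_contra hne
    rcases lt_or_gt_of_ne (fun h' => hne (Subtype.ext h')) with h1 | h1
    · exact key z z' h1 h
    · exact key z' z h1 h.symm
  have h1 : #(cutSet L) ≤ #𝒢 := Cardinal.mk_le_of_injective hHinj
  exact absurd (lt_of_le_of_lt (hT.trans h1) hcard) (lt_irrefl _)

/-- the compact members which separate the space or have an interior point are countable in number -/
theorem countable_exceptional (hE : 1 < Module.rank ℝ E) (𝒢 : Set (Set E))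
    (hconn : ∀ G ∈ 𝒢, IsConnected G)
    (hdisj : ∀ G ∈ 𝒢, ∀ G' ∈ 𝒢, G ≠ G' → Disjoint G G') (hcov : ∀ x : E, ∃ G ∈ 𝒢, x ∈ G)
    (hcard : #𝒢 < 𝔠) :
    {G ∈ 𝒢 | IsCompact G ∧ ¬ (IsConnected Gᶜ ∧ interior G = ∅)}.Countable := by
  haveI : SecondCountableTopology E := by
    haveI : ProperSpace E := FiniteDimensional.proper ℝ E
    infer_instance
  obtain ⟨D, hDc, hDd⟩ := TopologicalSpace.exists_countable_dense E
  have h1 : {G ∈ 𝒢 | IsCompact G ∧ ¬ (IsConnected Gᶜ ∧ interior G = ∅)} ⊆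
      ⋃ d ∈ D, {G ∈ 𝒢 | IsCompact G ∧ d ∈ fill G} := by
    rintro G ⟨hG, hGc, hGx⟩
    have hopen : ∃ U : Set E, IsOpen U ∧ U.Nonempty ∧ U ⊆ fill G := by
      by_cases hi : interior G = ∅
      · have h2 : ¬ IsConnected Gᶜ := fun h => hGx ⟨h, hi⟩
        refine ⟨inner G, isOpen_inner hE hGc, ?_, inner_subset_fill⟩
        by_contra hemp
        apply h2
        have h3 : Gᶜ = V G := by
          apply Subset.antisymm _ V_subset_compl
          intro y hy
          by_contra hyV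
          exact hemp ⟨y, hy, hyV⟩
        obtain ⟨R, -, hR, p, hp, hV⟩ := V_data hE hGc
        rw [h3, hV]
        exact ⟨⟨p, mem_connectedComponentIn hp⟩, isPreconnected_connectedComponentIn⟩
      · exact ⟨interior G, isOpen_interior, nonempty_iff_ne_empty.2 hi,
          interior_subset.trans subset_fill⟩
    obtain ⟨U, hU, hUne, hUf⟩ := hopen
    obtain ⟨d, hdU, hdD⟩ := hDd.inter_open_nonempty U hU hUne
    simp only [mem_iUnion]
    exact ⟨d, hdD, hG, hGc, hUf hdU⟩
  exact (hDc.biUnion fun d _ => countable_chain hE 𝒢 hconn hdisj hcov hcard d).mono h1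

omit E in
/-- the line is not a countable union of at least two disjoint closed sets -/
lemma line {ι : Type} [Countable ι] (F : ι → Set ℝ) (hc : ∀ i, IsClosed (F i))
    (hd : ∀ i j, i ≠ j → Disjoint (F i) (F j)) (hcov : ∀ x, ∃ i, x ∈ F i) (hne : ∀ i, F i ≠ Set.univ) : False := by
  classical
  set B : Set ℝ := (⋃ i, interior (F i))ᶜ with hB
  have hBc : IsClosed B := (isOpen_iUnion fun i => isOpen_interior).isClosed_compl
  have hfr : ∀ i, ∀ t, t ∈ frontier (F i) → t ∈ B := by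
    intro i t ht
    have htF : t ∈ F i := (hc i).frontier_subset ht
    intro h
    obtain ⟨k, hk⟩ := mem_iUnion.1 h
    by_cases hik : k = i
    · subst hik
      exact ht.2 hk
    · exact Set.disjoint_left.1 (hd k i hik) (interior_subset hk) htF
  have hfrne : ∀ i, ∀ S : Set ℝ, IsPreconnected S → (S ∩ F i).Nonempty → (S ∩ (F i)ᶜ).Nonempty →
      (S ∩ frontier (F i)).Nonempty := by
    intro i S hS h1 h2
    by_contra hemp
    have h3 : S ⊆ interior (F i) ∪ (F i)ᶜ := by
      intro s hs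
      by_cases hsF : s ∈ F i
      · left
        by_contra hsi
        exact hemp ⟨s, hs, subset_closure hsF, hsi⟩
      · exact Or.inr hsF
    obtain ⟨a, haS, haF⟩ := h1
    obtain ⟨b, hbS, hbF⟩ := h2
    have h4 : (S ∩ interior (F i)).Nonempty := by
      rcases h3 haS with h | h
      · exact ⟨a, haS, h⟩
      · exact absurd haF h
    obtain ⟨x, -, hx1, hx2⟩ := hS (interior (F i)) (F i)ᶜ isOpen_interior (hc i).isOpen_compl h3 h4 ⟨b, hbS, hbF⟩
    exact hx2 (interior_subset hx1)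
  obtain ⟨i₀, hi₀⟩ := hcov 0
  have hBne : B.Nonempty := by
    have h1 : ((F i₀)ᶜ).Nonempty := by
      rw [nonempty_compl]
      exact hne i₀
    obtain ⟨t, -, ht⟩ := hfrne i₀ Set.univ isPreconnected_univ ⟨0, trivial, hi₀⟩
      (by obtain ⟨y, hy⟩ := h1; exact ⟨y, trivial, hy⟩)
    exact ⟨t, hfr i₀ t ht⟩
  haveI : Nonempty B := hBne.to_subtype
  haveI : CompleteSpace B := hBc.completeSpace_coe
  obtain ⟨i, ⟨b, hb⟩, hbi⟩ := nonempty_interior_of_iUnion_of_closed
    (f := fun i : ι => (Subtype.val ⁻¹' F i : Set B)) (fun i => (hc i).preimage continuous_subtype_val)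
    (by
      ext x
      simp only [mem_iUnion, mem_preimage, mem_univ, iff_true]
      exact hcov x.1)
  rw [mem_interior_iff_mem_nhds, Metric.mem_nhds_iff] at hbi
  obtain ⟨ε, hε, hball⟩ := hbi
  have hI : ∀ t, |t - b| < ε → t ∈ B → t ∈ F i := by
    intro t ht htB
    have : (⟨t, htB⟩ : B) ∈ Metric.ball (⟨b, hb⟩ : B) ε := by
      rw [Metric.mem_ball, Subtype.dist_eq, Real.dist_eq]
      exact ht
    exact hball this
  have hbF : b ∈ F i := hI b (by simpa using hε) hb
  have hbint : b ∉ interior (F i) := fun h => hb (mem_iUnion.2 ⟨i, h⟩)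
  have hex : ∃ y, |y - b| < ε ∧ y ∉ F i := by
    by_contra hno
    push Not at hno
    apply hbint
    rw [mem_interior_iff_mem_nhds, Metric.mem_nhds_iff]
    exact ⟨ε, hε, fun t ht => hno t (by simpa [Real.dist_eq] using ht)⟩
  obtain ⟨y, hyb, hyF⟩ := hex
  obtain ⟨j, hj⟩ := hcov y
  have hji : j ≠ i := by rintro rfl; exact hyF hj
  have hbj : b ∉ F j := fun h => Set.disjoint_left.1 (hd j i hji) h hbF
  obtain ⟨t, htS, htf⟩ := hfrne j (uIcc y b) isPreconnected_uIcc ⟨y, left_mem_uIcc, hj⟩ ⟨b, right_mem_uIcc, hbj⟩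
  have htb : |t - b| < ε := by
    have h1 : |t - b| ≤ |y - b| := by
      rcases le_total y b with h | h
      · rw [uIcc_of_le h] at htS
        rw [abs_of_nonpos (by linarith [htS.2]), abs_of_nonpos (by linarith)]
        linarith [htS.1]
      · rw [uIcc_of_ge h] at htS
        rw [abs_of_nonneg (by linarith [htS.1]), abs_of_nonneg (by linarith)]
        linarith [htS.2]
    exact lt_of_le_of_lt h1 hyb
  have h2 : t ∈ F i := hI t htb (hfr j t htf)
  exact Set.disjoint_left.1 (hd j i hji) ((hc j).frontier_subset htf) h2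

/-- a partition into continua is uncountable -/
theorem not_countable (hE : 1 < Module.rank ℝ E) (𝒢 : Set (Set E))
    (hcomp : ∀ G ∈ 𝒢, IsCompact G)
    (hdisj : ∀ G ∈ 𝒢, ∀ G' ∈ 𝒢, G ≠ G' → Disjoint G G') (hcov : ∀ x : E, ∃ G ∈ 𝒢, x ∈ G) : ¬ 𝒢.Countable := by
  intro hcount
  haveI : Countable 𝒢 := hcount.to_subtype
  obtain ⟨v, hv⟩ := K_nonempty hE (E := E) 0
  have hv' : 0 < ‖v‖ := hv
  have hcont : Continuous (fun t : ℝ => t • v) := by fun_prop
  apply line (fun G : 𝒢 => (fun t : ℝ => t • v) ⁻¹' G.1)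
  · intro G
    exact (hcomp G.1 G.2).isClosed.preimage hcont
  · intro G G' hne
    exact (hdisj G.1 G.2 G'.1 G'.2 (fun h => hne (Subtype.ext h))).preimage _
  · intro t
    obtain ⟨G, hG, ht⟩ := hcov (t • v)
    exact ⟨⟨G, hG⟩, ht⟩
  · intro G huniv
    obtain ⟨R, hR⟩ := (hcomp G.1 G.2).isBounded.subset_closedBall (0 : E)
    have h1 : ((|R| + 1) / ‖v‖) • v ∈ G.1 := by
      have : ((|R| + 1) / ‖v‖) ∈ (fun t : ℝ => t • v) ⁻¹' G.1 := by rw [huniv]; trivial
      exact this
    have h2 : ‖((|R| + 1) / ‖v‖) • v‖ ≤ R := by simpa using hR h1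
    rw [norm_smul, Real.norm_eq_abs, abs_of_nonneg (by positivity), div_mul_cancel₀ _ hv'.ne'] at h2
    have := le_abs_self R
    linarith

/-- uncountably many members are nondegenerate, do not separate and have no interior point -/
theorem not_countable_core (hE : 1 < Module.rank ℝ E) (𝒢 : Set (Set E))
    (hcomp : ∀ G ∈ 𝒢, IsCompact G) (hconn : ∀ G ∈ 𝒢, IsConnected G)
    (hdisj : ∀ G ∈ 𝒢, ∀ G' ∈ 𝒢, G ≠ G' → Disjoint G G') (hcov : ∀ x : E, ∃ G ∈ 𝒢, x ∈ G)
    (hcard : #𝒢 < 𝔠) :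
    ¬ {G ∈ 𝒢 | G.Nontrivial ∧ IsConnected Gᶜ ∧ interior G = ∅}.Countable := by
  classical
  intro hN
  haveI : ProperSpace E := FiniteDimensional.proper ℝ E
  haveI : SecondCountableTopology E := inferInstance
  haveI : CompleteSpace E := inferInstance
  haveI : PolishSpace E := inferInstance
  have hD := countable_exceptional hE 𝒢 hconn hdisj hcov hcard
  set A : Set (Set E) := {G ∈ 𝒢 | G.Nontrivial ∧ IsConnected Gᶜ ∧ interior G = ∅} ∪
    {G ∈ 𝒢 | IsCompact G ∧ ¬ (IsConnected Gᶜ ∧ interior G = ∅)} with hA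
  have hAc : A.Countable := hN.union hD
  have hAsub : A ⊆ 𝒢 := by
    rintro G (hG | hG)
    · exact hG.1
    · exact hG.1
  have hrest : ∀ G ∈ 𝒢, G ∉ A → ∃ x, G = {x} := by
    intro G hG hGA
    have h1 : IsConnected Gᶜ ∧ interior G = ∅ := by
      by_contra h
      exact hGA (Or.inr ⟨hG, hcomp G hG, h⟩)
    have h2 : ¬ G.Nontrivial := fun h => hGA (Or.inl ⟨hG, h, h1.1, h1.2⟩)
    rw [not_nontrivial_iff] at h2
    obtain ⟨x, hx⟩ := (hconn G hG).nonempty
    exact ⟨x, h2.eq_singleton_of_mem hx⟩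
  set Z : Set E := (⋃ G ∈ A, G)ᶜ with hZ
  have hZm : MeasurableSet Z :=
    (MeasurableSet.biUnion hAc fun G hG => (hcomp G (hAsub hG)).isClosed.measurableSet).compl
  have hZs : ∀ x ∈ Z, ({x} : Set E) ∈ 𝒢 := by
    intro x hx
    obtain ⟨G, hG, hxG⟩ := hcov x
    have hGA : G ∉ A := by
      intro h
      exact hx (mem_iUnion₂.2 ⟨G, h, hxG⟩)
    obtain ⟨y, rfl⟩ := hrest G hG hGA
    have : x = y := hxG
    rwa [this]
  have hZcard : #Z < 𝔠 := by
    apply lt_of_le_of_lt _ hcard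
    apply Cardinal.mk_le_of_injective (f := fun x : Z => (⟨{x.1}, hZs x.1 x.2⟩ : 𝒢))
    intro x y hxy
    have : ({x.1} : Set E) = {y.1} := by simpa using hxy
    exact Subtype.ext (singleton_injective this)
  have hZc : Z.Countable := by
    by_contra hunc
    haveI : StandardBorelSpace Z := hZm.standardBorel
    have hunc' : ¬ Countable Z := fun h => hunc (countable_coe_iff.1 h)
    have e := PolishSpace.measurableEquivNatBoolOfNotCountable hunc'
    have h1 : #Z = #(ℕ → Bool) := Cardinal.mk_congr e.toEquiv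
    rw [h1] at hZcard
    simp at hZcard
  apply not_countable hE 𝒢 hcomp hdisj hcov
  have hsub : 𝒢 ⊆ A ∪ (fun x : E => ({x} : Set E)) '' Z := by
    intro G hG
    by_cases hGA : G ∈ A
    · exact Or.inl hGA
    right
    obtain ⟨x, rfl⟩ := hrest G hG hGA
    refine ⟨x, ?_, rfl⟩
    intro hx
    obtain ⟨G', hG', hxG'⟩ := mem_iUnion₂.1 hx
    have hne : ({x} : Set E) ≠ G' := by rintro rfl; exact hGA hG'
    exact Set.disjoint_left.1 (hdisj _ hG _ (hAsub hG') hne) rfl hxG'
  exact (hAc.union (hZc.image _)).mono hsub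

/-- the connected components of a set of reals -/
def comps (S : Set ℝ) : Set (Set ℝ) := (fun x => connectedComponentIn S x) '' S

omit E in
/-- fewer than continuum many disjoint closed sets covering the line (not one alone): uncountably many of
them have uncountably many components -/
theorem many_comps {ι : Type} (F : ι → Set ℝ) (hc : ∀ i, IsClosed (F i))
    (hd : ∀ i j, i ≠ j → Disjoint (F i) (F j)) (hcov : ∀ x, ∃ i, x ∈ F i) (hne : ∀ i, F i ≠ Set.univ)
    (hι : #ι < 𝔠) : ¬ {i | ¬ (comps (F i)).Countable}.Countable := by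
  classical
  intro hU
  set U : Set ι := {i | ¬ (comps (F i)).Countable} with hUdef
  choose g hg using hcov
  have huniq : ∀ i x, x ∈ F i → g x = i := by
    intro i x hx
    by_contra h
    exact Set.disjoint_left.1 (hd (g x) i h) (hg x) hx
  set I : Set (Set ℝ) := ⋃ i : (Uᶜ : Set ι), comps (F i.1) with hI
  have hIcard : #I < 𝔠 := by
    have h1 : #I ≤ Cardinal.sum (fun i : (Uᶜ : Set ι) => #(comps (F i.1))) := Cardinal.mk_iUnion_le_sum_mk
    have h2 : Cardinal.sum (fun i : (Uᶜ : Set ι) => #(comps (F i.1))) ≤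
        Cardinal.sum (fun _ : (Uᶜ : Set ι) => ℵ₀) := by
      apply Cardinal.sum_le_sum
      intro i
      have h3 : (comps (F i.1)).Countable := by
        by_contra h
        exact i.2 h
      exact h3.le_aleph0
    have h3 : Cardinal.sum (fun _ : (Uᶜ : Set ι) => ℵ₀) = #(Uᶜ : Set ι) * ℵ₀ := by simp
    rw [h3] at h2
    apply lt_of_le_of_lt (h1.trans h2)
    exact Cardinal.mul_lt_of_lt aleph0_le_continuum (lt_of_le_of_lt (Cardinal.mk_set_le _) hι) aleph0_lt_continuum
  set N : Set (Set ℝ) := {C ∈ I | C.Nontrivial} with hN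
  have hIdisj : ∀ C ∈ I, ∀ C' ∈ I, C ≠ C' → Disjoint C C' := by
    intro C hC C' hC' hne'
    obtain ⟨i, x, hx, rfl⟩ := mem_iUnion.1 hC
    obtain ⟨j, y, hy, rfl⟩ := mem_iUnion.1 hC'
    rw [Set.disjoint_left]
    intro z hz hz'
    have hzi : z ∈ F i.1 := connectedComponentIn_subset _ _ hz
    have hzj : z ∈ F j.1 := connectedComponentIn_subset _ _ hz'
    have hij : i.1 = j.1 := (huniq _ _ hzi).symm.trans (huniq _ _ hzj)
    apply hne'
    simp only at hz hz' ⊢
    rw [connectedComponentIn_eq hz, connectedComponentIn_eq hz', hij]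
  have hNc : N.Countable := by
    apply Set.PairwiseDisjoint.countable_of_nonempty_interior (s := fun C : Set ℝ => C)
    · intro C hC C' hC' hne'
      exact hIdisj C hC.1 C' hC'.1 hne'
    · rintro C ⟨hC, a, ha, b, hb, hab⟩
      have hCp : IsPreconnected C := by
        obtain ⟨i, x, hx, rfl⟩ := mem_iUnion.1 hC
        exact isPreconnected_connectedComponentIn
      rcases lt_or_gt_of_ne hab with h | h
      · have h1 : Ioo a b ⊆ C := Ioo_subset_Icc_self.trans (hCp.Icc_subset ha hb)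
        obtain ⟨m, hm⟩ := nonempty_Ioo.2 h
        exact ⟨m, mem_interior.2 ⟨Ioo a b, h1, isOpen_Ioo, hm⟩⟩
      · have h1 : Ioo b a ⊆ C := Ioo_subset_Icc_self.trans (hCp.Icc_subset hb ha)
        obtain ⟨m, hm⟩ := nonempty_Ioo.2 h
        exact ⟨m, mem_interior.2 ⟨Ioo b a, h1, isOpen_Ioo, hm⟩⟩
  have hNcl : ∀ C ∈ N, IsClosed C := by
    rintro C ⟨hC, -⟩
    obtain ⟨i, x, hx, rfl⟩ := mem_iUnion.1 hC
    rw [← closure_subset_iff_isClosed]
    apply (isPreconnected_connectedComponentIn.closure).subset_connectedComponentIn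
    · exact subset_closure (mem_connectedComponentIn hx)
    · exact closure_minimal (connectedComponentIn_subset _ _) (hc i.1)
  set T : Set ℝ := (⋃ i ∈ U, F i) ∪ (⋃ C ∈ N, C) with hT
  have hTm : MeasurableSet T :=
    (MeasurableSet.biUnion hU fun i _ => (hc i).measurableSet).union
      (MeasurableSet.biUnion hNc fun C hC => (hNcl C hC).measurableSet)
  have hS : ∀ x ∈ Tᶜ, ({x} : Set ℝ) ∈ I := by
    intro x hx
    have hxU : g x ∉ U := fun h => hx (Or.inl (mem_iUnion₂.2 ⟨g x, h, hg x⟩))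
    have hCI : connectedComponentIn (F (g x)) x ∈ I := mem_iUnion.2 ⟨⟨g x, hxU⟩, x, hg x, rfl⟩
    have hCn : ¬ (connectedComponentIn (F (g x)) x).Nontrivial := by
      intro h
      exact hx (Or.inr (mem_iUnion₂.2 ⟨_, ⟨hCI, h⟩, mem_connectedComponentIn (hg x)⟩))
    rw [not_nontrivial_iff] at hCn
    rw [← hCn.eq_singleton_of_mem (mem_connectedComponentIn (hg x))]
    exact hCI
  have hScard : #(Tᶜ : Set ℝ) < 𝔠 := by
    apply lt_of_le_of_lt _ hIcard
    apply Cardinal.mk_le_of_injective (f := fun x : (Tᶜ : Set ℝ) => (⟨{x.1}, hS x.1 x.2⟩ : I))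
    intro x y hxy
    have : ({x.1} : Set ℝ) = {y.1} := by simpa using hxy
    exact Subtype.ext (singleton_injective this)
  have hSc : (Tᶜ : Set ℝ).Countable := by
    by_contra hunc
    haveI : StandardBorelSpace (Tᶜ : Set ℝ) := hTm.compl.standardBorel
    have hunc' : ¬ Countable (Tᶜ : Set ℝ) := fun h => hunc (countable_coe_iff.1 h)
    have e := PolishSpace.measurableEquivNatBoolOfNotCountable hunc'
    have h1 : #(Tᶜ : Set ℝ) = #(ℕ → Bool) := Cardinal.mk_congr e.toEquiv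
    rw [h1] at hScard
    simp at hScard
  have hNne : ∀ C : N, ∃ p, p ∈ C.1 := fun C => C.2.2.nonempty
  choose p hp using hNne
  haveI : Countable N := hNc.to_subtype
  have hJ : {i | (F i).Nonempty}.Countable := by
    have hsub : {i | (F i).Nonempty} ⊆ (U ∪ g '' (Tᶜ : Set ℝ)) ∪ g '' (Set.range p) := by
      rintro i ⟨x, hx⟩
      by_cases hiU : i ∈ U
      · exact Or.inl (Or.inl hiU)
      by_cases hxT : x ∈ T
      · rcases hxT with h | h
        · obtain ⟨j, hj, hxj⟩ := mem_iUnion₂.1 h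
          have : i = j := (huniq _ _ hx).symm.trans (huniq _ _ hxj)
          exact absurd (this ▸ hj) hiU
        · obtain ⟨C, hC, hxC⟩ := mem_iUnion₂.1 h
          right
          refine ⟨p ⟨C, hC⟩, ⟨⟨C, hC⟩, rfl⟩, ?_⟩
          apply huniq
          have hpC := hp ⟨C, hC⟩
          obtain ⟨j, y, hy, hyC⟩ := mem_iUnion.1 hC.1
          have hCF : C ⊆ F j.1 := by
            rw [← hyC]
            exact connectedComponentIn_subset _ _
          have : i = j.1 := (huniq _ _ hx).symm.trans (huniq _ _ (hCF hxC))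
          rw [this]
          exact hCF hpC
      · exact Or.inl (Or.inr ⟨x, hxT, huniq _ _ hx⟩)
    exact ((hU.union (hSc.image _)).union ((countable_range p).image _)).mono hsub
  haveI : Countable {i | (F i).Nonempty} := hJ.to_subtype
  exact line (fun i : {i | (F i).Nonempty} => F i.1) (fun i => hc i.1)
    (fun i j hij => hd i.1 j.1 (fun h => hij (Subtype.ext h)))
    (fun x => ⟨⟨g x, ⟨x, hg x⟩⟩, hg x⟩) (fun i => hne i.1)

/-- on every injective curve which is not contained in one member, uncountably many nondegenerate, nowhere dense and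
nonseparating members have uncountably many components -/
theorem curve (hE : 1 < Module.rank ℝ E) (𝒢 : Set (Set E))
    (hcomp : ∀ G ∈ 𝒢, IsCompact G) (hconn : ∀ G ∈ 𝒢, IsConnected G)
    (hdisj : ∀ G ∈ 𝒢, ∀ G' ∈ 𝒢, G ≠ G' → Disjoint G G') (hcov : ∀ x : E, ∃ G ∈ 𝒢, x ∈ G)
    (hcard : #𝒢 < 𝔠) (γ : ℝ → E) (hγ : Continuous γ) (hinj : Function.Injective γ)
    (hγG : ∀ G ∈ 𝒢, ¬ Set.range γ ⊆ G) :
    ¬ {G ∈ 𝒢 | (G.Nontrivial ∧ IsConnected Gᶜ ∧ interior G = ∅) ∧ ¬ (comps (γ ⁻¹' G)).Countable}.Countable := by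
  classical
  intro hcount
  have hD := countable_exceptional hE 𝒢 hconn hdisj hcov hcard
  have h1 := many_comps (fun G : 𝒢 => γ ⁻¹' G.1) (fun G => (hcomp G.1 G.2).isClosed.preimage hγ)
    (fun G G' hne => (hdisj G.1 G.2 G'.1 G'.2 (fun h => hne (Subtype.ext h))).preimage _)
    (fun t => by obtain ⟨G, hG, ht⟩ := hcov (γ t); exact ⟨⟨G, hG⟩, ht⟩)
    (fun G huniv => hγG G.1 G.2 (by
      rintro _ ⟨t, rfl⟩
      have : t ∈ γ ⁻¹' G.1 := by rw [huniv]; trivial
      exact this)) hcard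
  apply h1
  have h2 : (Subtype.val '' {G : 𝒢 | ¬ (comps (γ ⁻¹' G.1)).Countable}).Countable := by
    apply (hcount.union hD).mono
    rintro _ ⟨⟨G, hG⟩, hGc, rfl⟩
    by_cases hx : IsConnected Gᶜ ∧ interior G = ∅
    · left
      refine ⟨hG, ⟨?_, hx.1, hx.2⟩, hGc⟩
      by_contra hnt
      apply hGc
      rw [not_nontrivial_iff] at hnt
      have hsub : (γ ⁻¹' G).Subsingleton := hnt.preimage hinj
      exact hsub.countable.image _
    · exact Or.inr ⟨hG, hcomp G hG, hx⟩
  exact countable_of_injective_of_countable_image Subtype.val_injective.injOn h2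

/-- the same for families of at least continuum many curves -/
theorem curves (hE : 1 < Module.rank ℝ E) (𝒢 : Set (Set E))
    (hcomp : ∀ G ∈ 𝒢, IsCompact G) (hconn : ∀ G ∈ 𝒢, IsConnected G)
    (hdisj : ∀ G ∈ 𝒢, ∀ G' ∈ 𝒢, G ≠ G' → Disjoint G G') (hcov : ∀ x : E, ∃ G ∈ 𝒢, x ∈ G)
    (hcard : #𝒢 < 𝔠) (S : Type) (hS : 𝔠 ≤ #S) (γ : S → ℝ → E) (hγ : ∀ s, Continuous (γ s))
    (hinj : ∀ s, Function.Injective (γ s)) (hγG : ∀ s, ∀ G ∈ 𝒢, ¬ Set.range (γ s) ⊆ G) :
    ¬ {G ∈ 𝒢 | (G.Nontrivial ∧ IsConnected Gᶜ ∧ interior G = ∅) ∧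
      ¬ {s | ¬ (comps (γ s ⁻¹' G)).Countable}.Countable}.Countable := by
  classical
  intro hcount
  set X : Set E → Set S := fun G => {s | ¬ (comps (γ s ⁻¹' G)).Countable} with hX
  set 𝒰 : Set (Set E) := {G ∈ 𝒢 | (X G).Countable} with h𝒰
  have h1 : #(⋃ G : 𝒰, X G.1 : Set S) < 𝔠 := by
    have h2 : #(⋃ G : 𝒰, X G.1 : Set S) ≤ Cardinal.sum (fun G : 𝒰 => #(X G.1)) := Cardinal.mk_iUnion_le_sum_mk
    have h3 : Cardinal.sum (fun G : 𝒰 => #(X G.1)) ≤ Cardinal.sum (fun _ : 𝒰 => ℵ₀) := by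
      apply Cardinal.sum_le_sum
      intro G
      exact G.2.2.le_aleph0
    have h4 : Cardinal.sum (fun _ : 𝒰 => ℵ₀) = #𝒰 * ℵ₀ := by simp
    rw [h4] at h3
    apply lt_of_le_of_lt (h2.trans h3)
    exact Cardinal.mul_lt_of_lt aleph0_le_continuum
      (lt_of_le_of_lt (Cardinal.mk_le_mk_of_subset (sep_subset _ _)) hcard) aleph0_lt_continuum
  have h5 : ∃ s : S, s ∉ (⋃ G : 𝒰, X G.1 : Set S) := by
    by_contra hno
    push Not at hno
    have h6 : (⋃ G : 𝒰, X G.1 : Set S) = Set.univ := Set.eq_univ_of_forall hno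
    rw [h6, Cardinal.mk_univ] at h1
    exact absurd h1 (not_lt.2 hS)
  obtain ⟨s, hs⟩ := h5
  apply curve hE 𝒢 hcomp hconn hdisj hcov hcard (γ s) (hγ s) (hinj s) (hγG s)
  apply hcount.mono
  rintro G ⟨hG, hthin, hGs⟩
  refine ⟨hG, hthin, fun hcnt => hs ?_⟩
  exact mem_iUnion.2 ⟨⟨G, hG, hcnt⟩, hGs⟩

end Pool.Agent.H656.PlanePart
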